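import Pool.Agent.TH738.NR.NCR

set_option autoImplicit false

/-! Reals computable from `X` are members of countable effectively closed classes. -/

namespace Pool.Agent.TH738.NR

open Nat.Partrec (Code)
open Pool.Agent.Helper743 (TR RecT pre pre_length recT_pre pre_getElem?)
open Pool.Agent.Helper743.PR (evT evR evR_spec evT_p evT_mono)

/-- the string `σ` of the class is compatible with `ρ`, and the functional `e` does not map it
to anything incompatible with `τ` -/
def cons (e : ℕ) (ρ τ σ : List Bool) : Prop :=
  σ.take ρ.length = ρ.take σ.length ∧ ∀ m ∈ List.range τ.length, ∀ j ∈ List.range (τ.length+1),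
    (evT τ.length e ((nb σ).take j) m = 0 ∨
      evT τ.length e ((nb σ).take j) m = (τ.getD m false).toNat + 1)

/-- the class of the images -/
def im (e : ℕ) (ρ τ : List Bool) : Prop := ∃ σ ∈ G τ.length, cons e ρ τ σ

section prim
attribute [local irreducible] evT

lemma cons_p (e : ℕ) (ρ : List Bool) :
    PrimrecPred (fun q : List Bool × List Bool => cons e ρ q.1 q.2) := by
  have h1 : PrimrecPred (fun q : List Bool × List Bool =>
      q.2.take ρ.length = ρ.take q.2.length) :=
    Primrec.eq.comp (Primrec.list_take.comp (Primrec.const _) Primrec.snd)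
      (Primrec.list_take.comp (Primrec.list_length.comp Primrec.snd) (Primrec.const ρ))
  -- the innermost predicate: j, m, (τ, σ)
  have a1 : Primrec (fun z : ℕ × (ℕ × (List Bool × List Bool)) =>
      evT z.2.2.1.length e ((nb z.2.2.2).take z.1) z.2.1) :=
    evT_p.comp (((Primrec.list_length.comp (Primrec.fst.comp (Primrec.snd.comp
      Primrec.snd))).pair (Primrec.const e)).pair
      ((Primrec.list_take.comp Primrec.fst (nb_p.comp (Primrec.snd.comp
        (Primrec.snd.comp Primrec.snd)))).pair (Primrec.fst.comp Primrec.snd)))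
  have a2 : Primrec (fun z : ℕ × (ℕ × (List Bool × List Bool)) =>
      (z.2.2.1.getD z.2.1 false).toNat + 1) :=
    Primrec.succ.comp ((Primrec.dom_finite Bool.toNat).comp ((Primrec.list_getD false).comp
      (Primrec.fst.comp (Primrec.snd.comp Primrec.snd)) (Primrec.fst.comp Primrec.snd)))
  have h2 : PrimrecRel (fun (j : ℕ) (z : ℕ × (List Bool × List Bool)) =>
      (evT z.2.1.length e ((nb z.2.2).take j) z.1 = 0 ∨
      evT z.2.1.length e ((nb z.2.2).take j) z.1 = (z.2.1.getD z.1 false).toNat + 1)) :=
    PrimrecPred.or (Primrec.eq.comp a1 (Primrec.const 0)) (Primrec.eq.comp a1 a2)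
  have h3 : PrimrecRel (fun (m : ℕ) (q : List Bool × List Bool) =>
      ∀ j ∈ List.range (q.1.length+1), (evT q.1.length e ((nb q.2).take j) m = 0 ∨
      evT q.1.length e ((nb q.2).take j) m = (q.1.getD m false).toNat + 1)) :=
    h2.forall_mem_list.comp (Primrec.list_range.comp (Primrec.succ.comp
      (Primrec.list_length.comp (Primrec.fst.comp Primrec.snd)))) Primrec.id
  exact PrimrecPred.and h1 (h3.forall_mem_list.comp (Primrec.list_range.comp
    (Primrec.list_length.comp Primrec.fst)) Primrec.id)

lemma im_p (e : ℕ) (ρ : List Bool) : PrimrecPred (im e ρ) := by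
  have h1 : PrimrecRel (fun (σ τ : List Bool) => cons e ρ τ σ) :=
    (cons_p e ρ).comp (Primrec.snd.pair Primrec.fst)
  exact h1.exists_mem_list.comp (G_p.comp Primrec.list_length) Primrec.id

end prim

lemma cons_take {e : ℕ} {ρ τ σ : List Bool} (h : cons e ρ τ σ) (s : ℕ) : cons e ρ (τ.take s) (σ.take s) := by
  obtain ⟨h1, h2⟩ := h
  refine ⟨?_, ?_⟩
  · rw [List.take_take, min_comm, ← List.take_take, h1, List.take_take, List.length_take]
  · intro m hm j hj
    rw [List.length_take, List.mem_range] at hm hj
    have h3 : (nb (σ.take s)).take j = (nb σ).take j := by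
      rw [nb_take, List.take_take, min_eq_left (by omega)]
    have h4 : (τ.take s).getD m false = τ.getD m false := by
      rw [List.getD_eq_getElem?_getD, List.getD_eq_getElem?_getD,
        List.getElem?_take_of_lt (by omega)]
    rw [h3, h4, List.length_take]
    by_cases h5 : evT (min s τ.length) e ((nb σ).take j) m = 0
    · left; exact h5
    · right
      have h6 := evT_mono (min_le_right s τ.length) h5
      rcases h2 m (by rw [List.mem_range]; omega) j (by rw [List.mem_range]; omega) with h7 | h7
      · rw [← h6] at h5; exact (h5 h7).elim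
      · rw [← h6]; exact h7

lemma im_take {e : ℕ} {ρ τ : List Bool} (h : im e ρ τ) (s : ℕ) : im e ρ (τ.take s) := by
  obtain ⟨σ, h1, h2⟩ := h
  rcases le_total s τ.length with hs | hs
  · refine ⟨σ.take s, ?_, cons_take h2 s⟩
    rw [List.length_take, min_eq_left hs]
    exact G_take hs h1
  · rw [List.take_of_length_le hs]
    exact ⟨σ, h1, h2⟩

lemma closed_bp (n : ℕ) (p : List Bool → Prop) : IsClosed {Z : ℕ → Bool | p (bp Z n)} := by
  have h1 : {Z : ℕ → Bool | p (bp Z n)} = (fun (Z : ℕ → Bool) (i : Fin n) => Z i) ⁻¹'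
      {v : Fin n → Bool | p (List.ofFn v)} := by
    ext Z
    simp only [Set.mem_ofPred_eq, Set.mem_preimage]
    have : bp Z n = List.ofFn (fun i : Fin n => Z i) := by
      unfold bp
      apply List.ext_getElem
      · simp
      · intro i h1 h2; simp
    rw [this]
  rw [h1]
  exact IsClosed.preimage (by fun_prop) (isClosed_discrete _)

lemma bp_getD (σ : List Bool) : bp (fun i => σ.getD i false) σ.length = σ := by
  unfold bp
  apply List.ext_getElem
  · simp
  · intro i h1 h2
    simp [List.getElem?_eq_getElem h2]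

/-- the class of the images is the image of the class -/
lemma im_exists {e : ℕ} {ρ : List Bool} {W : ℕ → Bool} (h : ∀ n, im e ρ (bp W n)) :
    ∃ Z, InP Z ∧ Sb ρ Z ∧ ∀ n, cons e ρ (bp W n) (bp Z n) := by
  let C : ℕ → Set (ℕ → Bool) := fun n =>
    {Z | (fun σ => σ ∈ G n ∧ cons e ρ (bp W n) σ) (bp Z n)}
  have hC : (⋂ n, C n).Nonempty := by
    refine IsCompact.nonempty_iInter_of_sequence_nonempty_isCompact_isClosed C ?_ ?_ ?_ ?_
    · rintro n Z ⟨h1, h2⟩
      refine ⟨?_, ?_⟩
      · have := G_take (Nat.le_succ n) h1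
        rwa [bp_take Z (Nat.le_succ n)] at this
      · have := cons_take h2 n
        rwa [bp_take Z (Nat.le_succ n), bp_take W (Nat.le_succ n)] at this
    · intro n
      obtain ⟨σ, h1, h2⟩ := h n
      rw [bp_length] at h1
      refine ⟨fun i => σ.getD i false, ?_⟩
      have h3 := bp_getD σ
      rw [G_len h1] at h3
      change bp (fun i => σ.getD i false) n ∈ G n ∧
        cons e ρ (bp W n) (bp (fun i => σ.getD i false) n)
      rw [h3]
      exact ⟨h1, h2⟩
    · exact (closed_bp 0 (fun σ => σ ∈ G 0 ∧ cons e ρ (bp W 0) σ)).isCompact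
    · intro n; exact closed_bp n (fun σ => σ ∈ G n ∧ cons e ρ (bp W n) σ)
  obtain ⟨Z, hZ⟩ := hC
  rw [Set.mem_iInter] at hZ
  refine ⟨Z, fun n => (hZ n).1, ?_, fun n => (hZ n).2⟩
  have h1 := (hZ ρ.length).2.1
  rw [bp_length, List.take_of_length_le (by simp), List.take_of_length_le (le_refl _)] at h1
  exact h1

/-- a real computable from `X` is a member of a countable effectively closed class -/
theorem Good.image {X : ℕ → Bool} (h : Good X) {Y : ℕ → Bool} (hY : TR (orc Y) (orc X)) :
    ∃ OK : List Bool → Bool, Primrec OK ∧ (∀ σ, OK σ = true → ∀ n, OK (σ.take n) = true) ∧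
      {Z : ℕ → Bool | ∀ n, OK (bp Z n) = true}.Countable ∧ ∀ n, OK (bp Y n) = true := by
  classical
  obtain ⟨e, ev, he, hv⟩ := exists_fnl hY
  obtain ⟨ρ, hρ, ht⟩ := h.total he (fun x => by
    obtain ⟨n, hn⟩ := hv x; exact ⟨n, _, hn⟩)
  refine ⟨fun τ => decide (im e ρ τ), (im_p e ρ).decide, ?_, ?_, ?_⟩
  · intro σ hσ n
    exact decide_eq_true (im_take (of_decide_eq_true hσ) n)
  · let Ψ : (ℕ → Bool) → (ℕ → Bool) := fun Z m =>
      decide (∃ j, ev (pre (orc Z) j) m = some 1)
    refine (h.countable.image Ψ).mono ?_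
    intro W hW
    have hW' : ∀ n, im e ρ (bp W n) := fun n => of_decide_eq_true (hW n)
    obtain ⟨Z, h1, h2, h3⟩ := im_exists hW'
    refine ⟨Z, h1, ?_⟩
    funext m
    obtain ⟨t, h4, h5⟩ := ht m
    obtain ⟨j, hj, h6⟩ := h5 _ (h1 t) ((Sb_iff h4).1 h2)
    rw [List.mem_range, bp_length] at hj
    rw [nb_bp_take Z (by omega)] at h6
    obtain ⟨y, h7, h8⟩ := he.val h6
    have h9 := (h3 (max t (m+1))).2 m (by rw [List.mem_range, bp_length]; omega) j
      (by rw [List.mem_range, bp_length]; omega)
    rw [bp_length, nb_bp_take Z (by omega), evT_mono (le_max_left t (m+1)) h6, h8,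
      bp_get W (by omega)] at h9
    have h10 : y = (W m).toNat := by
      rcases h9 with h9 | h9
      · omega
      · omega
    change decide (∃ j, ev (pre (orc Z) j) m = some 1) = W m
    cases hWm : W m with
    | true =>
      rw [hWm] at h10
      exact decide_eq_true ⟨j, by rw [h7, h10]; rfl⟩
    | false =>
      rw [hWm] at h10
      refine decide_eq_false ?_
      rintro ⟨i, hi⟩
      have := he.uniq h7 hi
      rw [this] at h10
      exact absurd h10 (by decide)
  · intro n
    refine decide_eq_true ⟨bp X n, ?_, ?_, ?_⟩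
    · rw [bp_length]; exact h.inP n
    · rw [bp_length]
      rcases le_total ρ.length n with h1 | h1
      · rw [bp_take X h1, List.take_of_length_le h1]
        exact hρ
      · rw [List.take_of_length_le (by simpa using h1)]
        have h2 := hρ
        unfold Sb at h2
        rw [← bp_take X h1, h2]
    · intro m hm j hj
      rw [List.mem_range, bp_length] at hm hj
      rw [bp_length, nb_bp_take X (by omega)]
      by_cases h1 : evT n e (pre (orc X) j) m = 0
      · left; exact h1
      · right
        obtain ⟨y, h2, h3⟩ := he.val h1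
        obtain ⟨i, hi⟩ := hv m
        have h4 := he.uniq h2 hi
        rw [h3, h4, bp_get Y hm]
        rfl

end Pool.Agent.TH738.NR
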