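import Pool.Agent.TH738.NR.Defs

set_option autoImplicit false

/-! The construction is primitive recursive. -/

namespace Pool.Agent.TH738.NR

open Nat.Partrec (Code)
open Pool.Agent.Helper743.PR (evT evT_p)

lemma nb_p : Primrec nb :=
  Primrec.list_map Primrec.id ((Primrec.cond Primrec.snd (Primrec.const 1)
    (Primrec.const 0)).of_eq (fun q => by cases q.2 <;> rfl))

attribute [local irreducible] evT

lemma cv_p : PrimrecPred (fun q : (ℕ × ℕ) × (List Bool × ℕ) => cv q.1.1 q.1.2 q.2.1 q.2.2) := by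
  have h1 : PrimrecRel (fun (j : ℕ) (q : (ℕ × ℕ) × (List Bool × ℕ)) =>
      evT q.1.1 q.1.2 ((nb q.2.1).take j) q.2.2 ≠ 0) := by
    have a1 : Primrec (fun z : ℕ × ((ℕ × ℕ) × (List Bool × ℕ)) => (nb z.2.2.1).take z.1) :=
      Primrec.list_take.comp Primrec.fst (nb_p.comp (Primrec.fst.comp
        (Primrec.snd.comp Primrec.snd)))
    have a2 : Primrec (fun z : ℕ × ((ℕ × ℕ) × (List Bool × ℕ)) =>
        evT z.2.1.1 z.2.1.2 ((nb z.2.2.1).take z.1) z.2.2.2) :=
      evT_p.comp ((Primrec.fst.comp Primrec.snd).pair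
        (a1.pair (Primrec.snd.comp (Primrec.snd.comp Primrec.snd))))
    exact (Primrec.eq.comp a2 (Primrec.const 0)).not
  exact h1.exists_mem_list.comp
    (Primrec.list_range.comp (Primrec.succ.comp
      (Primrec.list_length.comp (Primrec.fst.comp Primrec.snd))))
    Primrec.id

lemma cvb_p : Primrec (fun q : (ℕ × ℕ) × (List Bool × ℕ) =>
    decide (cv q.1.1 q.1.2 q.2.1 q.2.2)) := cv_p.decide

attribute [local irreducible] cv

section
variable {α : Type*} [Primcodable α]

lemma app0_p {L : α → List (List Bool)} (hL : Primrec L) :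
    Primrec (fun a => (L a).map (· ++ [false])) :=
  Primrec.list_map hL (Primrec.list_append.comp Primrec.snd (Primrec.const [false]))

lemma last_p {L : α → List (List Bool)} (hL : Primrec L) :
    Primrec (fun a => (L a).reverse.headI ++ [false]) :=
  Primrec.list_append.comp (Primrec.list_headI.comp (Primrec.list_reverse.comp hL))
    (Primrec.const [false])

lemma mid_p {L : α → List (List Bool)} {b c : α → ℕ} (hL : Primrec L) (hb : Primrec b)
    (hc : Primrec c) :
    Primrec (fun a => ((L a).drop (b a)).take ((L a).length - (b a + c a))) :=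
  Primrec.list_take.comp (Primrec.nat_sub.comp (Primrec.list_length.comp hL)
    (Primrec.nat_add.comp hb hc)) (Primrec.list_drop.comp hb hL)

lemma fi1_p {L : α → List (List Bool)} {t d n : α → ℕ} (hL : Primrec L) (ht : Primrec t)
    (hd : Primrec d) (hn : Primrec n) :
    Primrec (fun a => (L a).findIdx (fun σ => decide (cv (t a) (d a / 2) σ (n a)))) := by
  refine Primrec.list_findIdx hL ?_
  exact cvb_p.comp (((ht.comp Primrec.fst).pair (Primrec.nat_div.comp (hd.comp Primrec.fst)
    (Primrec.const 2))).pair (Primrec.snd.pair (hn.comp Primrec.fst)))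

lemma fi2_p {L : α → List (List Bool)} {t d n : α → ℕ} (hL : Primrec L) (ht : Primrec t)
    (hd : Primrec d) (hn : Primrec n) :
    Primrec (fun a => (L a).findIdx (fun σ => !decide (cv (t a) (d a / 2) σ (n a)))) := by
  refine Primrec.list_findIdx hL ?_
  exact Primrec.not.comp (cvb_p.comp (((ht.comp Primrec.fst).pair
    (Primrec.nat_div.comp (hd.comp Primrec.fst)
    (Primrec.const 2))).pair (Primrec.snd.pair (hn.comp Primrec.fst))))

end

/-- parameters of the recursion: stage, level, list -/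
abbrev Pr := ℕ × (ℕ × List (List Bool))

/-- results of the recursion -/
abbrev Rs := List Fr × List (List Bool)

def g0 (b : Pr) : Rs :=
  if b.2.1 % 2 = 0 then ([Fr.un b.1], [b.2.2.headI ++ [false], b.2.2.headI ++ [true]])
  else ([Fr.inf 0], b.2.2.map (· ++ [false]))

lemma g0_p : Primrec g0 := by
  have hd : Primrec (fun b : Pr => b.2.2.headI) :=
    Primrec.list_headI.comp (Primrec.snd.comp Primrec.snd)
  refine Primrec.ite (Primrec.eq.comp (Primrec.nat_mod.comp (Primrec.fst.comp Primrec.snd)
    (Primrec.const 2)) (Primrec.const 0)) ?_ ?_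
  · refine Primrec.pair (Primrec.list_cons.comp (Fr.un_p.comp Primrec.fst) (Primrec.const [])) ?_
    exact Primrec.list_cons.comp (Primrec.list_append.comp hd (Primrec.const [false]))
      (Primrec.list_cons.comp (Primrec.list_append.comp hd (Primrec.const [true]))
        (Primrec.const []))
  · exact Primrec.pair (Primrec.const _) (app0_p (Primrec.snd.comp Primrec.snd))

def k0 (a : Fr) (b : Pr) : Pr :=
  (b.1, (b.2.1 + 1, Fr.cs a (fun _ => b.2.2.take (b.2.2.length - 1)) b.2.2 (fun _ => b.2.2)
    (fun q => (b.2.2.drop q.2.1).take (b.2.2.length - (q.2.1 + q.2.2.1)))))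

lemma k0_p : Primrec₂ k0 := by
  have hL : Primrec (fun z : Fr × Pr => z.2.2.2) :=
    Primrec.snd.comp (Primrec.snd.comp Primrec.snd)
  refine Primrec.pair (Primrec.fst.comp Primrec.snd) (Primrec.pair
    (Primrec.succ.comp (Primrec.fst.comp (Primrec.snd.comp Primrec.snd))) ?_)
  refine Fr.cs_p Primrec.fst ?_ hL ?_ ?_
  · exact Primrec.list_take.comp (Primrec.nat_sub.comp (Primrec.list_length.comp
      (hL.comp Primrec.fst)) (Primrec.const 1)) (hL.comp Primrec.fst)
  · exact hL.comp Primrec.fst
  · exact mid_p (hL.comp Primrec.fst) (Primrec.fst.comp (Primrec.snd.comp Primrec.snd))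
      (Primrec.fst.comp (Primrec.snd.comp (Primrec.snd.comp Primrec.snd)))

def h0 (a : Fr × (List Fr × Pr)) (r : Rs) : Rs :=
  Fr.cs a.1
    (fun p => if Code.evaln a.2.2.1 (Denumerable.ofNat Code (a.2.2.2.1/2)) p = some 0 then
        ([Fr.sw], [a.2.2.2.2.reverse.headI ++ [false]])
      else (Fr.un p :: r.1, r.2 ++ [a.2.2.2.2.reverse.headI ++ [false]]))
    (Fr.sw :: r.1, r.2)
    (fun n =>
      if a.2.2.2.2.findIdx (fun σ => !decide (cv a.2.2.1 (a.2.2.2.1/2) σ n)) <
          a.2.2.2.2.length then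
        ([Fr.fin n (a.2.2.2.2.findIdx (fun σ => !decide (cv a.2.2.1 (a.2.2.2.1/2) σ n)))
          (a.2.2.2.2.length - 1 -
            a.2.2.2.2.findIdx (fun σ => !decide (cv a.2.2.1 (a.2.2.2.1/2) σ n)))
          (Encodable.encode a.2.1)], a.2.2.2.2.map (· ++ [false]))
      else (Fr.inf (n+1) :: r.1, r.2))
    (fun q =>
      if ((a.2.2.2.2.drop q.2.1).take (a.2.2.2.2.length - (q.2.1 + q.2.2.1))).findIdx
          (fun σ => decide (cv a.2.2.1 (a.2.2.2.1/2) σ q.1)) <
          ((a.2.2.2.2.drop q.2.1).take (a.2.2.2.2.length - (q.2.1 + q.2.2.1))).length then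
        (Fr.inf q.1 :: (Encodable.decode (α := List Fr) q.2.2.2).getD [],
          (a.2.2.2.2.take q.2.1 ++
            ([((a.2.2.2.2.drop q.2.1).take (a.2.2.2.2.length - (q.2.1 + q.2.2.1))).getI
            (((a.2.2.2.2.drop q.2.1).take (a.2.2.2.2.length - (q.2.1 + q.2.2.1))).findIdx
              (fun σ => decide (cv a.2.2.1 (a.2.2.2.1/2) σ q.1)))] ++
              a.2.2.2.2.drop (a.2.2.2.2.length - q.2.2.1))).map (· ++ [false]))
      else (Fr.fin q.1 q.2.1 q.2.2.1 q.2.2.2 :: r.1,
          (a.2.2.2.2.take q.2.1).map (· ++ [false]) ++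
            (r.2 ++ (a.2.2.2.2.drop (a.2.2.2.2.length - q.2.2.1)).map (· ++ [false]))))

lemma h0_p : Primrec₂ h0 := by
  have zt : Primrec (fun z : (Fr × (List Fr × Pr)) × Rs => z.1.2.2.1) :=
    Primrec.fst.comp (Primrec.snd.comp (Primrec.snd.comp Primrec.fst))
  have zd : Primrec (fun z : (Fr × (List Fr × Pr)) × Rs => z.1.2.2.2.1) :=
    Primrec.fst.comp (Primrec.snd.comp (Primrec.snd.comp (Primrec.snd.comp Primrec.fst)))
  have zL : Primrec (fun z : (Fr × (List Fr × Pr)) × Rs => z.1.2.2.2.2) :=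
    Primrec.snd.comp (Primrec.snd.comp (Primrec.snd.comp (Primrec.snd.comp Primrec.fst)))
  have zl : Primrec (fun z : (Fr × (List Fr × Pr)) × Rs => z.1.2.1) :=
    Primrec.fst.comp (Primrec.snd.comp Primrec.fst)
  have zr1 : Primrec (fun z : (Fr × (List Fr × Pr)) × Rs => z.2.1) :=
    Primrec.fst.comp Primrec.snd
  have zr2 : Primrec (fun z : (Fr × (List Fr × Pr)) × Rs => z.2.2) :=
    Primrec.snd.comp Primrec.snd
  refine Fr.cs_p (Primrec.fst.comp Primrec.fst) ?_ ?_ ?_ ?_
  · -- un
    have w1 : Primrec (fun w : ((Fr × (List Fr × Pr)) × Rs) × ℕ =>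
        Code.evaln w.1.1.2.2.1 (Denumerable.ofNat Code (w.1.1.2.2.2.1/2)) w.2) :=
      Code.primrec_evaln.comp (((zt.comp Primrec.fst).pair ((Primrec.ofNat Code).comp
        (Primrec.nat_div.comp (zd.comp Primrec.fst) (Primrec.const 2)))).pair Primrec.snd)
    refine Primrec.ite (Primrec.eq.comp w1 (Primrec.const (some 0))) ?_ ?_
    · exact Primrec.pair (Primrec.const _) (Primrec.list_cons.comp
        (last_p (zL.comp Primrec.fst)) (Primrec.const []))
    · exact Primrec.pair (Primrec.list_cons.comp (Fr.un_p.comp Primrec.snd)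
        (zr1.comp Primrec.fst)) (Primrec.list_append.comp (zr2.comp Primrec.fst)
        (Primrec.list_cons.comp (last_p (zL.comp Primrec.fst)) (Primrec.const [])))
  · exact Primrec.pair (Primrec.list_cons.comp (Primrec.const _) zr1) zr2
  · -- inf
    have i1 := fi2_p (zL.comp Primrec.fst) (zt.comp Primrec.fst) (zd.comp Primrec.fst)
      (Primrec.snd : Primrec (fun w : ((Fr × (List Fr × Pr)) × Rs) × ℕ => w.2))
    refine Primrec.ite (Primrec.nat_lt.comp i1 (Primrec.list_length.comp
      (zL.comp Primrec.fst))) ?_ ?_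
    · refine Primrec.pair (Primrec.list_cons.comp ?_ (Primrec.const [])) (app0_p
        (zL.comp Primrec.fst))
      exact Fr.fin_p.comp (Primrec.snd.pair (i1.pair ((Primrec.nat_sub.comp
        (Primrec.nat_sub.comp (Primrec.list_length.comp (zL.comp Primrec.fst))
          (Primrec.const 1)) i1).pair (Primrec.encode.comp (zl.comp Primrec.fst)))))
    · exact Primrec.pair (Primrec.list_cons.comp (Fr.inf_p.comp
        (Primrec.succ.comp Primrec.snd)) (zr1.comp Primrec.fst)) (zr2.comp Primrec.fst)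
  · -- fin
    have q1 : Primrec (fun w : ((Fr × (List Fr × Pr)) × Rs) × (ℕ × (ℕ × (ℕ × ℕ))) => w.2.1) :=
      Primrec.fst.comp Primrec.snd
    have q2 : Primrec (fun w : ((Fr × (List Fr × Pr)) × Rs) × (ℕ × (ℕ × (ℕ × ℕ))) => w.2.2.1) :=
      Primrec.fst.comp (Primrec.snd.comp Primrec.snd)
    have q3 : Primrec (fun w : ((Fr × (List Fr × Pr)) × Rs) × (ℕ × (ℕ × (ℕ × ℕ))) =>
        w.2.2.2.1) :=
      Primrec.fst.comp (Primrec.snd.comp (Primrec.snd.comp Primrec.snd))
    have q4 : Primrec (fun w : ((Fr × (List Fr × Pr)) × Rs) × (ℕ × (ℕ × (ℕ × ℕ))) =>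
        w.2.2.2.2) :=
      Primrec.snd.comp (Primrec.snd.comp (Primrec.snd.comp Primrec.snd))
    have hm := mid_p (zL.comp Primrec.fst) q2 q3
    have i1 := fi1_p hm (zt.comp Primrec.fst) (zd.comp Primrec.fst) q1
    have hA := Primrec.list_take.comp q2 (zL.comp Primrec.fst)
    have hB := Primrec.list_drop.comp (Primrec.nat_sub.comp (Primrec.list_length.comp
      (zL.comp Primrec.fst)) q3) (zL.comp Primrec.fst)
    refine Primrec.ite (Primrec.nat_lt.comp i1 (Primrec.list_length.comp hm)) ?_ ?_
    · refine Primrec.pair (Primrec.list_cons.comp (Fr.inf_p.comp q1)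
        (Primrec.option_getD.comp (Primrec.decode.comp q4) (Primrec.const []))) ?_
      exact app0_p (Primrec.list_append.comp hA (Primrec.list_append.comp
        (Primrec.list_cons.comp (Primrec.list_getI.comp hm i1) (Primrec.const [])) hB))
    · exact Primrec.pair (Primrec.list_cons.comp (Fr.fin_p.comp Primrec.snd)
        (zr1.comp Primrec.fst)) (Primrec.list_append.comp (app0_p hA)
        (Primrec.list_append.comp (zr2.comp Primrec.fst) (app0_p hB)))

lemma step_p : Primrec (fun q : (ℕ × List Fr) × (ℕ × List (List Bool)) =>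
    step q.1.1 q.1.2 q.2.1 q.2.2) := by
  have h := rec_param (F := fun (l : List Fr) (b : Pr) => step b.1 l b.2.1 b.2.2)
    g0_p k0_p h0_p (fun b => by simp only [step, g0]) (fun a l b => by
      cases a <;> simp only [step, h0, k0, Fr.cs])
  exact h.comp (Primrec.snd.comp Primrec.fst)
    ((Primrec.fst.comp Primrec.fst).pair Primrec.snd)

lemma St_p : Primrec St := by
  have h : Primrec₂ (fun (_ : Unit) (t : ℕ) => St t) := by
    refine (Primrec.nat_rec (f := fun _ : Unit => (([], [[]]) : Rs))
      (g := fun _ z => step z.1 z.2.1 0 z.2.2) (Primrec.const _) ?_).of_eq ?_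
    · exact step_p.comp (((Primrec.fst.comp Primrec.snd).pair
        (Primrec.fst.comp (Primrec.snd.comp Primrec.snd))).pair
        ((Primrec.const 0).pair (Primrec.snd.comp (Primrec.snd.comp Primrec.snd))))
    · intro _ t
      induction t with
      | zero => rfl
      | succ t ih => simp only [St]; rw [← ih]
  exact h.comp (Primrec.const ()) Primrec.id

lemma G_p : Primrec G := Primrec.snd.comp St_p

end Pool.Agent.TH738.NR
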