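import Pool.Agent.TH738.NR.Run

set_option autoImplicit false

/-! The strategies of odd level: functions computed by the member of the class are dominated by
computable functions. -/

namespace Pool.Agent.TH738.NR

open Nat.Partrec (Code)

section odd
variable {d : ℕ} {σ : List Bool} {T : ℕ → ℕ} {F : ℕ → List Fr} {L : ℕ → List (List Bool)}

lemma Run.odd_start (R : Run d σ T F L) (hd : d % 2 ≠ 0) :
    F 1 = [Fr.inf 0] ∧ ∃ τ0, L 1 = [τ0] ∧ σ ++ [false] <+: τ0 := by
  have h1 := R.Fs 0
  have h2 := R.Ls 0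
  rw [R.F0, R.L0, step_nil_odd hd] at h1 h2
  exact ⟨h1, h2.single⟩

/-- no string above `τ0` converges at `n` at the stage `T k` -/
def Non (d : ℕ) (T : ℕ → ℕ) (L : ℕ → List (List Bool)) (τ0 : List Bool) (n k : ℕ) : Prop :=
  ∀ τ ∈ L k, τ0 <+: τ → ¬ cv (T k) (d/2) τ n

lemma Run.fin_on (R : Run d σ T F L) {k0 n q : ℕ} {A0 B0 : List (List Bool)} {τ0 : List Bool}
    (hF : F k0 = [Fr.fin n A0.length B0.length q]) (hL : L k0 = A0 ++ τ0 :: B0) (j : ℕ)
    (hj : ∀ i < j, Non d T L τ0 n (k0+i)) :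
    ∃ fs A M B, F (k0+j) = Fr.fin n A.length B.length q :: fs ∧ L (k0+j) = A ++ (M ++ B) ∧
      PE A0 A ∧ PE B0 B ∧ (∀ τ ∈ M, τ0 <+: τ) ∧ M ≠ [] := by
  induction j with
  | zero =>
    refine ⟨[], A0, [τ0], B0, hF, hL, PE.refl _, PE.refl _, fun τ hτ => ?_, by simp⟩
    rw [List.mem_singleton] at hτ
    rw [hτ]
  | succ j ih =>
    obtain ⟨fs, A, M, B, h1, h2, h3, h4, h5, _⟩ := ih (fun i hi => hj i (by omega))
    have h6 := R.Fs (k0+j)
    have h7 := R.Ls (k0+j)
    have hv := R.val (k0+j)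
    rw [h1, h2] at h6 h7 hv
    rcases step_fin (T (k0+j)) d n q fs A M B with ⟨_, h9⟩ | ⟨τ, h8, h9, _⟩
    · rw [h9] at h6 h7
      obtain ⟨A', C', h10, h11, h12⟩ := h7.split
      obtain ⟨M', B', rfl, h14, h15⟩ := h12.split
      have hA : PE A A' := (PE.map0 A).trans h11
      have hB : PE B B' := (PE.map0 B).trans h15
      have hv' : Val fs M.length := by
        generalize hm : (A ++ (M ++ B)).length = m at hv
        generalize hb : A.length = b at hv hm
        generalize hc : B.length = c at hv hm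
        cases hv with
        | @fin _ _ _ _ _ m' h _ =>
          simp only [List.length_append, hb, hc] at hm
          have h20 : M.length = m' := Nat.add_right_cancel (Nat.add_left_cancel hm)
          rw [h20]; exact h
      have hst := step_all (T (k0+j)) (d := d+1) hv'
      refine ⟨(step (T (k0 + j)) fs (d + 1) M).1, A', M', B', ?_, h10, h3.trans hA, h4.trans hB, fun τ hτ => ?_, ?_⟩
      · rw [← add_assoc, h6, hA.length, hB.length]
      · obtain ⟨ρ, h12, h13⟩ := h14.mem hτ
        obtain ⟨ρ', h16, b, rfl⟩ := hst.1.mem h12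
        exact (h5 ρ' h16).trans ((List.prefix_append _ _).trans h13)
      · rintro rfl
        have h16 := h14.length
        have h17 := hst.2.pos
        rw [h16] at h17
        simp at h17
    · refine (hj j (by omega) τ ?_ (h5 τ h8) h9).elim
      rw [h2]
      exact List.mem_append_right _ (List.mem_append_left _ h8)

lemma Run.notA (R : Run d σ T F L) {k0 : ℕ} {A0 B0 A : List (List Bool)} {τ0 τ : List Bool}
    (hL : L k0 = A0 ++ τ0 :: B0) (hA : PE A0 A) (hτ : τ ∈ A) (h : τ0 <+: τ) : False := by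
  obtain ⟨ρ, h1, h2⟩ := hA.mem hτ
  have h3 : ρ.length = T k0 := R.len (by rw [hL]; exact List.mem_append_left _ h1)
  have h4 : τ0.length = T k0 := R.len (by rw [hL]; simp)
  have h5 : ρ = τ0 := eq_of_pre h2 h (by omega)
  subst h5
  have h6 := R.nodup k0
  rw [hL, List.nodup_append] at h6
  exact h6.2.2 ρ h1 ρ List.mem_cons_self rfl

lemma Run.notB (R : Run d σ T F L) {k0 : ℕ} {A0 B0 B : List (List Bool)} {τ0 τ : List Bool}
    (hL : L k0 = A0 ++ τ0 :: B0) (hB : PE B0 B) (hτ : τ ∈ B) (h : τ0 <+: τ) : False := by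
  obtain ⟨ρ, h1, h2⟩ := hB.mem hτ
  have h3 : ρ.length = T k0 := R.len (by
    rw [hL]; exact List.mem_append_right _ (List.mem_cons_of_mem _ h1))
  have h4 : τ0.length = T k0 := R.len (by rw [hL]; simp)
  have h5 : ρ = τ0 := eq_of_pre h2 h (by omega)
  subst h5
  have h6 := R.nodup k0
  rw [hL, List.nodup_append] at h6
  exact (List.nodup_cons.1 h6.2.1).1 h1

/-- the sub-run when the finitary outcome is correct -/
theorem Run.next_fin (R : Run d σ T F L) (hd : d % 2 ≠ 0) {k0 n q : ℕ} {A0 B0 : List (List Bool)}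
    {τ0 : List Bool} (hk0 : 1 ≤ k0)
    (hF : F k0 = [Fr.fin n A0.length B0.length q]) (hL : L k0 = A0 ++ τ0 :: B0)
    (hj : ∀ i, Non d T L τ0 n (k0+i)) :
    ∃ σ' T' F' L', Run (d+1) σ' T' F' L' ∧ Nxt d σ σ' := by
  have hon := fun j => R.fin_on hF hL j (fun i _ => hj i)
  choose fs A M B e1 e2 e3 e4 e5 e6 using hon
  have hσ : σ <+: τ0 := ((R.gl k0 τ0).1 (by rw [hL]; simp)).2
  have hM : ∀ k τ, τ ∈ L (k0+k) → τ0 <+: τ → τ ∈ M k := by
    intro k τ h1 h2
    rw [e2 k] at h1
    rcases List.mem_append.1 h1 with h | h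
    · exact (R.notA hL (e3 k) h h2).elim
    rcases List.mem_append.1 h with h | h
    · exact h
    · exact (R.notB hL (e4 k) h h2).elim
  have hst : ∀ k, step (T (k0+k)) (F (k0+k)) d (L (k0+k)) =
      (Fr.fin n (A k).length (B k).length q :: (step (T (k0+k)) (fs k) (d+1) (M k)).1,
        (A k).map (· ++ [false]) ++ ((step (T (k0+k)) (fs k) (d+1) (M k)).2 ++
          (B k).map (· ++ [false]))) := by
    intro k
    rw [e1 k, e2 k]
    rcases step_fin (T (k0+k)) d n q (fs k) (A k) (M k) (B k) with ⟨_, h9⟩ | ⟨τ, h8, h9, _⟩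
    · exact h9
    · refine (hj k τ ?_ (e5 k τ h8) h9).elim
      rw [e2 k]
      exact List.mem_append_right _ (List.mem_append_left _ h8)
  have hsub : Run (d+1) τ0 (fun k => T (k0+k)) fs M := by
    refine R.sub (κ := fun k => k0+k) (fun a b h => by simp only; omega) hσ ?_ ?_ ?_ ?_ ?_
    · have h1 := e1 0
      rw [add_zero, hF] at h1
      simp at h1
      exact h1.2
    · have h1 := e2 0
      rw [add_zero, hL] at h1
      have h2 : A0 ++ ([τ0] ++ B0) = A 0 ++ (M 0 ++ B 0) := h1
      have h3 := (List.append_inj h2 (e3 0).length).2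
      exact (List.append_inj' h3 (e4 0).length).1.symm
    · intro k
      have h9 := R.Fs (k0+k)
      rw [hst k, add_assoc k0 k 1, e1 (k+1)] at h9
      simp at h9
      exact h9.2
    · intro k
      have h9 := R.Ls (k0+k)
      rw [hst k, add_assoc k0 k 1, e2 (k+1)] at h9
      obtain ⟨A', C', h10, h11, h12⟩ := h9.split
      obtain ⟨M', B', rfl, h14, h15⟩ := h12.split
      have hA : (A (k+1)).length = A'.length := by
        rw [← h11.length, List.length_map, ← (e3 k).length, (e3 (k+1)).length]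
      have hB : (B (k+1)).length = B'.length := by
        rw [← h15.length, List.length_map, ← (e4 k).length, (e4 (k+1)).length]
      have h16 := (List.append_inj h10 hA).2
      rw [(List.append_inj' h16 hB).1]
      exact h14
    · intro k τ
      constructor
      · intro h
        refine ⟨?_, e5 k τ h⟩
        rw [e2 k]
        exact List.mem_append_right _ (List.mem_append_left _ h)
      · rintro ⟨h1, h2⟩
        exact hM k τ h1 h2
  have hlσ := R.len0
  have hlτ : τ0.length = T k0 := R.len (by rw [hL]; simp)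
  have hlt : T 0 < T k0 := R.mono (by omega)
  have hPE : ∀ k, ∃ M', L (k0+k) = A k ++ (M' ++ B k) := fun k => ⟨M k, e2 k⟩
  refine ⟨τ0, _, fs, M, hsub, ⟨hσ, by omega, ?_, ?_, ?_⟩⟩
  · intro Y hY hs hn
    have hmem := R.inL hY hs
    have hρ : bp Y (T k0) ∈ L k0 := hmem k0
    have hρτ : bp Y (T k0) ≠ τ0 := by
      intro h
      apply hn
      unfold Sb
      rw [hlτ, h]
    refine ⟨bp Y (T k0), Sb_bp _ _, fun s => ⟨T (k0+s), ?_, ?_⟩⟩
    · exact (Nat.le_add_left s k0).trans (R.Tk_ge (k0+s))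
    · intro τ h1 τ' h2 h3 h4
      have hσρ : σ <+: bp Y (T k0) := ((R.gl k0 _).1 hρ).2
      have h5 : τ ∈ L (k0+s) := (R.gl _ _).2 ⟨h1, hσρ.trans h3⟩
      have h6 : τ' ∈ L (k0+s) := (R.gl _ _).2 ⟨h2, hσρ.trans h4⟩
      -- neither string is above τ0
      have hnot : ∀ x, bp Y (T k0) <+: x → x ∈ M s → False := by
        intro x h7 h8
        exact hρτ (eq_of_pre h7 (e5 s x h8) (by rw [bp_length, hlτ]))
      have hin : ∀ x, bp Y (T k0) <+: x → x ∈ L (k0+s) → x ∈ A s ++ B s := by
        intro x h7 h8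
        rw [e2 s] at h8
        rcases List.mem_append.1 h8 with h | h
        · exact List.mem_append_left _ h
        rcases List.mem_append.1 h with h | h
        · exact (hnot x h7 h).elim
        · exact List.mem_append_right _ h
      have hPE : PE (A0 ++ B0) (A s ++ B s) := (e3 s).append (e4 s)
      have hnd : (A0 ++ B0).Nodup := by
        have h9 := R.nodup k0
        rw [hL] at h9
        exact h9.sublist (List.Sublist.append (List.Sublist.refl _) (List.sublist_cons_self _ _))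
      have hlen : ∀ x ∈ A0 ++ B0, x.length = T k0 := by
        intro x hx
        refine R.len ?_
        rw [hL]
        rcases List.mem_append.1 hx with h | h
        · exact List.mem_append_left _ h
        · exact List.mem_append_right _ (List.mem_cons_of_mem _ h)
      have hρin : bp Y (T k0) ∈ A0 ++ B0 := by
        rw [hL] at hρ
        rcases List.mem_append.1 hρ with h | h
        · exact List.mem_append_left _ h
        rcases List.mem_cons.1 h with h | h
        · exact (hρτ h).elim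
        · exact List.mem_append_right _ h
      exact hPE.unique hlen hnd hρin (hin τ h3 h5) (hin τ' h4 h6) h3 h4
  · intro h; exact (hd h).elim
  · intro _
    left
    refine ⟨n, fun Y hY hs t hc => ?_⟩
    have h1 : t ≤ T (k0+t) := (Nat.le_add_left t k0).trans (R.Tk_ge (k0+t))
    have h2 := cv_mono h1 (bp_pre Y h1) hc
    have h3 : τ0 <+: bp Y (T (k0+t)) := (Sb_iff (by
      rw [hlτ]; exact R.mono.monotone (Nat.le_add_right _ _))).1 hs
    exact hj t _ (R.inL hY (hs.mono hσ) (k0+t)) h3 h2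

/-- the end of a finitary phase -/
lemma Run.fin_end (R : Run d σ T F L) {k0 n q : ℕ} {A0 B0 : List (List Bool)}
    {τ0 : List Bool} (hF : F k0 = [Fr.fin n A0.length B0.length q]) (hL : L k0 = A0 ++ τ0 :: B0)
    (hj : ¬ ∀ i, Non d T L τ0 n (k0+i)) :
    ∃ k, k0 < k ∧ F k = Fr.inf n :: (Encodable.decode (α := List Fr) q).getD [] ∧
      ∃ A τ B, L k = A ++ τ :: B ∧ PE A0 A ∧ PE B0 B ∧ τ0 <+: τ ∧ cv (T k) (d/2) τ n := by
  classical
  have hex : ∃ i, ¬ Non d T L τ0 n (k0+i) := not_forall.1 hj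
  set i := Nat.find hex with hi
  have h0 := Nat.find_spec hex
  rw [← hi] at h0
  have hmin : ∀ j < i, Non d T L τ0 n (k0+j) := fun j hji => by
    by_contra hc
    exact Nat.find_min hex hji hc
  obtain ⟨fs, A, M, B, h1, h2, h3, h4, h5, _⟩ := R.fin_on hF hL i hmin
  refine ⟨k0+i+1, by omega, ?_⟩
  have h6 := R.Fs (k0+i)
  have h7 := R.Ls (k0+i)
  rw [h1, h2] at h6 h7
  rcases step_fin (T (k0+i)) d n q fs A M B with ⟨h8, _⟩ | ⟨τ, h8, h9, h10⟩
  · exfalso
    apply h0
    intro τ hτ hpre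
    rw [h2] at hτ
    rcases List.mem_append.1 hτ with h | h
    · exact (R.notA hL h3 h hpre).elim
    rcases List.mem_append.1 h with h | h
    · exact h8 τ h
    · exact (R.notB hL h4 h hpre).elim
  · rw [h10] at h6 h7
    refine ⟨h6, ?_⟩
    have h7' := (PE.map0 _).trans h7
    obtain ⟨A', C', h11, h12, h13⟩ := h7'.split
    obtain ⟨τ', B', rfl, h14, h15⟩ := h13.cons_left
    refine ⟨A', τ', B', h11, h3.trans h12, h4.trans h15, (h5 τ h8).trans h14, ?_⟩
    exact cv_mono (R.mono.monotone (Nat.le_succ _)) h14 h9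

/-- the hypothesis that no finitary outcome is correct -/
def NoFin (d : ℕ) (T : ℕ → ℕ) (F : ℕ → List Fr) (L : ℕ → List (List Bool)) : Prop :=
  ∀ (k0 n q : ℕ) (A0 B0 : List (List Bool)) (τ0 : List Bool), 1 ≤ k0 →
    F k0 = [Fr.fin n A0.length B0.length q] → L k0 = A0 ++ τ0 :: B0 →
    ¬ ∀ i, Non d T L τ0 n (k0+i)

/-- the infinitary strategy reaches a stage at which all strings converge -/
lemma Run.inf_phase (R : Run d σ T F L) (hN : NoFin d T F L) (n : ℕ) (fs : List Fr) (r : ℕ) :
    ∀ k A C, F k = Fr.inf n :: fs → L k = A ++ C → C.length ≤ r →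
      (∀ τ ∈ A, cv (T k) (d/2) τ n) →
      ∃ k', k ≤ k' ∧ F k' = Fr.inf n :: fs ∧ PE (L k) (L k') ∧
        ∀ τ ∈ L k', cv (T k') (d/2) τ n := by
  induction r with
  | zero =>
    intro k A C hF hL hC hA
    have : C = [] := List.length_eq_zero_iff.1 (by omega)
    subst this
    rw [List.append_nil] at hL
    exact ⟨k, le_refl _, hF, PE.refl _, by rw [hL]; exact hA⟩
  | succ r ih =>
    intro k A C hF hL hC hA
    rcases step_inf (T k) d n fs (L k) with ⟨h1, _⟩ | ⟨A1, τ, B1, h1, h2, h3, h4⟩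
    · exact ⟨k, le_refl _, hF, PE.refl _, h1⟩
    · -- |A| ≤ |A1|
      have hlen : A.length ≤ A1.length := by
        by_contra hc
        push Not at hc
        apply h3
        apply hA
        have h5 : A ++ C = (A1 ++ [τ]) ++ B1 := by
          rw [← hL, h1]; simp
        have h6 : (A1 ++ [τ]) <+: A := by
          refine List.prefix_of_prefix_length_le (List.prefix_append _ B1) ?_ ?_
          · rw [← h5]; exact List.prefix_append _ _
          · simp; omega
        exact h6.subset (by simp)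
      have h5 := R.Fs k
      have h6 := R.Ls k
      rw [hF, h4] at h5 h6
      have h7 : PE (L k) (L (k+1)) := (PE.map0 _).trans h6
      have h8 := h7
      rw [h1] at h8
      obtain ⟨A2, C2, h9, h10, h11⟩ := h8.split
      obtain ⟨τ2, B2, rfl, h12, h13⟩ := h11.cons_left
      have hF1 : F (k+1) = [Fr.fin n A2.length B2.length (Encodable.encode fs)] := by
        rw [h5, h10.length, h13.length]
      obtain ⟨k', h14, h15, A3, τ3, B3, h16, h17, h18, h19, h20⟩ :=
        R.fin_end hF1 h9 (hN _ _ _ _ _ _ (by omega) hF1 h9)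
      rw [Encodable.encodek] at h15
      have hk' : T k ≤ T k' := R.mono.monotone (by omega)
      obtain ⟨k'', h21, h22, h23, h24⟩ := ih k' (A3 ++ [τ3]) B3 h15 (by rw [h16]; simp) (by
          rw [← h18.length, ← h13.length]
          have h25 := congrArg List.length hL
          rw [h1] at h25
          simp at h25
          omega) (by
          intro ρ hρ
          rcases List.mem_append.1 hρ with h | h
          · obtain ⟨ρ', h26, h27⟩ := (h10.trans h17).mem h
            exact cv_mono hk' h27 (h2 ρ' h26)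
          · rw [List.mem_singleton] at h
            rw [h]; exact h20)
      refine ⟨k'', by omega, h22, h7.trans (PE.trans ?_ h23), h24⟩
      rw [h9, h16]
      exact h17.append (List.Forall₂.cons h19 h18)

/-- the sub-run when the infinitary outcome is correct -/
theorem Run.next_inf (R : Run d σ T F L) (hd : d % 2 ≠ 0) (hN : NoFin d T F L) :
    ∃ σ' T' F' L', Run (d+1) σ' T' F' L' ∧ Nxt d σ σ' := by
  obtain ⟨hF1, τ0, hL1, hτ0⟩ := R.odd_start hd
  let Q : ℕ → ℕ → List Fr → Prop := fun i κ fs =>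
    F κ = Fr.inf i :: fs ∧ ∀ τ ∈ L κ, cv (T κ) (d/2) τ i
  have hstep : ∀ i κ fs, Q i κ fs → step (T κ) (F κ) d (L κ) =
      (Fr.inf (i+1) :: (step (T κ) fs (d+1) (L κ)).1, (step (T κ) fs (d+1) (L κ)).2) := by
    rintro i κ fs ⟨h1, h2⟩
    rw [h1]
    rcases step_inf (T κ) d i fs (L κ) with ⟨_, h3⟩ | ⟨A1, τ, B1, h4, _, h5, _⟩
    · exact h3
    · exact (h5 (h2 τ (by rw [h4]; simp))).elim
  have hnext : ∀ i κ fs, ∃ κ', Q i κ fs → κ < κ' ∧
      Q (i+1) κ' (step (T κ) fs (d+1) (L κ)).1 ∧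
      PE (step (T κ) fs (d+1) (L κ)).2 (L κ') := by
    intro i κ fs
    by_cases hQ : Q i κ fs
    · have h3 := hstep i κ fs hQ
      have h4 := R.Fs κ
      have h5 := R.Ls κ
      rw [h3] at h4 h5
      obtain ⟨κ', h6, h7, h8, h9⟩ := R.inf_phase hN (i+1) _ (L (κ+1)).length (κ+1) [] (L (κ+1))
        h4 rfl (le_refl _) (by simp)
      exact ⟨κ', fun _ => ⟨by omega, ⟨h7, h9⟩, h5.trans h8⟩⟩
    · exact ⟨0, fun h => (hQ h).elim⟩
  choose nx hnx using hnext
  obtain ⟨κ0, h1, h2, h3, h4⟩ := R.inf_phase hN 0 [] (L 1).length 1 [] (L 1) hF1 rfl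
    (le_refl _) (by simp)
  let sq : ℕ → ℕ × List Fr := fun i => Nat.rec (κ0, []) (fun i p =>
    (nx i p.1 p.2, (step (T p.1) p.2 (d+1) (L p.1)).1)) i
  have sq0 : sq 0 = (κ0, []) := rfl
  have sqs : ∀ i, sq (i+1) = (nx i (sq i).1 (sq i).2,
    (step (T (sq i).1) (sq i).2 (d+1) (L (sq i).1)).1) := fun i => rfl
  have hQ : ∀ i, Q i (sq i).1 (sq i).2 := by
    intro i
    induction i with
    | zero => rw [sq0]; exact ⟨h2, h4⟩
    | succ i ih => rw [sqs]; exact (hnx i _ _ ih).2.1
  have hκm : StrictMono (fun i => (sq i).1) := by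
    refine strictMono_nat_of_lt_succ (fun i => ?_)
    rw [sqs]; exact (hnx i _ _ (hQ i)).1
  have hPE : ∀ i, PE (step (T (sq i).1) (sq i).2 (d+1) (L (sq i).1)).2 (L (sq (i+1)).1) := by
    intro i
    rw [sqs]; exact (hnx i _ _ (hQ i)).2.2
  rw [hL1] at h3
  obtain ⟨σ', h5, h6⟩ := h3.single
  have hσ : σ <+: σ' := ((List.prefix_append _ _).trans hτ0).trans h6
  have hall : ∀ i, ∀ τ ∈ L (sq i).1, σ' <+: τ := by
    intro i
    induction i with
    | zero =>
      intro τ hτ
      rw [sq0] at hτ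
      simp only at hτ
      rw [h5, List.mem_singleton] at hτ
      rw [hτ]
    | succ i ih =>
      intro τ hτ
      obtain ⟨ρ, h7, h8⟩ := (hPE i).mem hτ
      have h9 := R.ex (sq i).1
      rw [hstep i _ _ (hQ i)] at h9
      obtain ⟨ρ', h10, b, rfl⟩ := h9.mem h7
      exact (ih ρ' h10).trans ((List.prefix_append _ _).trans h8)
  have hsub : Run (d+1) σ' (fun i => T (sq i).1) (fun i => (sq i).2) (fun i => L (sq i).1) := by
    refine R.sub (κ := fun i => (sq i).1) hκm hσ rfl ?_ ?_ hPE ?_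
    · rw [sq0]; exact h5
    · intro k; rw [sqs]
    · intro k τ
      exact ⟨fun h => ⟨h, hall k τ h⟩, fun h => h.1⟩
  have hlσ := R.len0
  have hlσ' : σ'.length = T κ0 := R.len (by rw [h5]; simp)
  have hlt : T 0 < T κ0 := R.mono (by omega)
  refine ⟨σ', _, _, _, hsub, ⟨hσ, by omega, ?_, ?_, ?_⟩⟩
  · intro Y hY hs hn
    have hmem := R.inL hY hs κ0
    rw [h5, List.mem_singleton] at hmem
    refine (hn ?_).elim
    unfold Sb; rw [hlσ', hmem]
  · intro h; exact (hd h).elim
  · intro _
    right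
    intro n
    refine ⟨T (sq n).1, ?_, fun τ hτ hpre => ?_⟩
    · rw [hlσ']
      exact R.mono.monotone (hκm.monotone (Nat.zero_le n))
    · exact (hQ n).2 τ ((R.gl _ _).2 ⟨hτ, hσ.trans hpre⟩)

theorem Run.next_odd (R : Run d σ T F L) (hd : d % 2 ≠ 0) :
    ∃ σ' T' F' L', Run (d+1) σ' T' F' L' ∧ Nxt d σ σ' := by
  by_cases hN : NoFin d T F L
  · exact R.next_inf hd hN
  · unfold NoFin at hN
    push Not at hN
    obtain ⟨k0, n, q, A0, B0, τ0, h1, h2, h3, h4⟩ := hN
    exact R.next_fin hd h1 h2 h3 h4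

end odd

end Pool.Agent.TH738.NR
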