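import Pool.Agent.TH738.NR.Even
import Pool.Agent.TH738.NR.Odd
import Pool.Agent.TH738.NR.Comp

set_option autoImplicit false

/-! The member of the class. -/

namespace Pool.Agent.TH738.NR

open Nat.Partrec (Code)
open Pool.Agent.Helper743 (TR pre pre_length use_principle)
open Pool.Agent.Helper743.PR (evT evR evR_spec evT_p)
open Pool.Agent.Helper743.AC (ev_code evT_evR)

/-- there is a run of level `d` above `σ` -/
def HasRun (d : ℕ) (σ : List Bool) : Prop := ∃ T F L, Run d σ T F L

lemma HasRun.next {d : ℕ} {σ : List Bool} (h : HasRun d σ) :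
    ∃ σ', HasRun (d+1) σ' ∧ Nxt d σ σ' := by
  obtain ⟨T, F, L, R⟩ := h
  by_cases hd : d % 2 = 0
  · obtain ⟨σ', T', F', L', h1, h2⟩ := R.next_even hd
    exact ⟨σ', ⟨T', F', L', h1⟩, h2⟩
  · obtain ⟨σ', T', F', L', h1, h2⟩ := R.next_odd hd
    exact ⟨σ', ⟨T', F', L', h1⟩, h2⟩

lemma HasRun.inG {d : ℕ} {σ : List Bool} (h : HasRun d σ) : σ ∈ G σ.length := by
  obtain ⟨T, F, L, R⟩ := h
  have h1 : σ ∈ L 0 := by rw [R.L0]; simp
  have h2 := ((R.gl 0 σ).1 h1).1
  rwa [R.len0]

theorem chain : ∃ S : ℕ → List Bool, S 0 = [] ∧ (∀ d, S d ∈ G (S d).length) ∧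
    ∀ d, Nxt d (S d) (S (d+1)) := by
  have h : ∀ (d : ℕ) (s : {σ : List Bool // HasRun d σ}),
      ∃ s' : {σ : List Bool // HasRun (d+1) σ}, Nxt d s.1 s'.1 := by
    intro d s
    obtain ⟨σ', h1, h2⟩ := s.2.next
    exact ⟨⟨σ', h1⟩, h2⟩
  choose f hf using h
  let S : (d : ℕ) → {σ : List Bool // HasRun d σ} := fun d =>
    Nat.rec (motive := fun d => {σ : List Bool // HasRun d σ}) ⟨[], ⟨_, _, _, Run.top⟩⟩
      (fun d s => f d s) d
  exact ⟨fun d => (S d).1, rfl, fun d => (S d).2.inG, fun d => hf d (S d)⟩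

/-- the properties of the member `X` of the class -/
structure Good (X : ℕ → Bool) : Prop where
  inP : InP X
  thin : ∀ Y, InP Y → Y ≠ X → Thin Y
  nc : ∀ c : Code, ∃ (p : ℕ), ∀ t, Code.evaln t c p ≠ some (X p).toNat
  hif : ∀ e : ℕ, (∃ n, ∀ t, ¬ cv t e (bp X t) n) ∨
    ∃ ρ, Sb ρ X ∧ ∀ n, ∃ t, ρ.length ≤ t ∧ ∀ τ ∈ G t, ρ <+: τ → cv t e τ n

theorem exists_good : ∃ X, Good X := by
  obtain ⟨S, hS0, hG, hN⟩ := chain
  have hlen : ∀ d, d ≤ (S d).length := by
    intro d
    induction d with
    | zero => exact Nat.zero_le _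
    | succ d ih => have := (hN d).lt; omega
  have hmono : ∀ {a b}, a ≤ b → S a <+: S b := by
    intro a b hab
    induction b with
    | zero =>
      have : a = 0 := by omega
      rw [this]
    | succ b ih =>
      rcases Nat.lt_or_ge b a with h | h
      · have : a = b+1 := by omega
        rw [this]
      · exact (ih h).trans (hN b).pre
  let X : ℕ → Bool := fun n => (S (n+1)).getD n false
  have hX : ∀ d, Sb (S d) X := by
    intro d
    unfold Sb bp
    apply List.ext_getElem
    · simp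
    · intro i h1 h2
      simp only [List.getElem_map, List.getElem_range]
      change (S (i+1)).getD i false = _
      have h3 : i < (S (i+1)).length := by have := hlen (i+1); omega
      rw [List.getD_eq_getElem _ _ h3]
      rcases le_total d (i+1) with h | h
      · exact ((hmono h).getElem h2).symm
      · exact (hmono h).getElem h3
  have hin : InP X := by
    refine InP_of (fun s => ⟨(S s).length, hlen s, ?_⟩)
    have h1 := hX s
    unfold Sb at h1
    rw [h1]
    exact hG s
  have hsub : ∀ Y, (∀ d, Sb (S d) Y) → Y = X := by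
    intro Y hY
    funext n
    have h1 : n < (S (n+1)).length := by have := hlen (n+1); omega
    rw [(hY (n+1)).get h1, (hX (n+1)).get h1]
  refine ⟨X, hin, ?_, ?_, ?_⟩
  · intro Y hY hne
    by_contra hth
    apply hne
    apply hsub
    intro d
    induction d with
    | zero =>
      rw [hS0]
      exact (rfl : bp Y 0 = [])
    | succ d ih =>
      by_contra hc
      exact hth ((hN d).thin Y hY ih hc)
  · intro c
    obtain ⟨p, b, h1, h2⟩ := (hN (2 * Encodable.encode c)).ev (by omega)
    refine ⟨p, fun t => ?_⟩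
    rw [h1 X (hX _)]
    have h3 := h2 t
    rwa [Nat.mul_div_cancel_left _ (by norm_num : 0 < 2), Denumerable.ofNat_encode] at h3
  · intro e
    have h0 : (2*e+1)/2 = e := by omega
    rcases (hN (2*e+1)).od (by omega) with ⟨n, h1⟩ | h1
    · left
      refine ⟨n, fun t => ?_⟩
      have h2 := h1 X hin (hX _) t
      rwa [h0] at h2
    · right
      refine ⟨S (2*e+1+1), hX _, fun n => ?_⟩
      obtain ⟨t, h2, h3⟩ := h1 n
      exact ⟨t, h2, fun τ h4 h5 => by have h6 := h3 τ h4 h5; rwa [h0] at h6⟩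

end Pool.Agent.TH738.NR
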