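import Pool.Agent.TH738.NR.Cons

set_option autoImplicit false

/-! The member `X` of the class is hyperarithmetic, and is not computable from a computably
enumerable set. -/

namespace Pool.Agent.TH738.NR

open Nat.Partrec (Code)
open Pool.Agent.Helper743 (TR RecT pre pre_length recT_pre pre_getElem? LimC chi chi_TR_K K)

/-- constancy of `g` on an interval -/
def cst (g : ℕ → ℕ → ℕ) (k n : ℕ) : ℕ → Bool
  | 0 => true
  | s+1 => cst g k n s && (decide (s < n) || decide (g k s = g k n))

lemma cst_iff {g : ℕ → ℕ → ℕ} {k n b : ℕ} :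
    cst g k n b = true ↔ ∀ s, n ≤ s → s < b → g k s = g k n := by
  induction b with
  | zero => simp [cst]
  | succ m ih =>
    rw [cst, Bool.and_eq_true, ih, Bool.or_eq_true, decide_eq_true_iff, decide_eq_true_iff]
    constructor
    · rintro ⟨h1, h2⟩ s h3 h4
      rcases Nat.lt_succ_iff_lt_or_eq.1 h4 with h5 | h5
      · exact h1 s h3 h5
      · subst h5
        rcases h2 with h2 | h2
        · omega
        · exact h2
    · intro h1
      refine ⟨fun s h2 h3 => h1 s h2 (by omega), ?_⟩
      rcases Nat.lt_or_ge m n with h2 | h2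
      · exact Or.inl h2
      · exact Or.inr (h1 m h2 (by omega))

lemma cst_c {g : ℕ → ℕ → ℕ} (hg : Computable₂ g) :
    Computable (fun q : ℕ × (ℕ × ℕ) => cst g q.1 q.2.1 q.2.2) := by
  have a1 : Computable (fun z : (ℕ × (ℕ × ℕ)) × (ℕ × Bool) => decide (z.2.1 < z.1.2.1)) := by
    have h : PrimrecRel (fun a b : ℕ => a < b) := Primrec.nat_lt
    exact h.decide.to_comp.comp (Computable.fst.comp Computable.snd)
      (Computable.fst.comp (Computable.snd.comp Computable.fst))
  have a2 : Computable (fun z : (ℕ × (ℕ × ℕ)) × (ℕ × Bool) =>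
      decide (g z.1.1 z.2.1 = g z.1.1 z.1.2.1)) := by
    have h : PrimrecRel (fun a b : ℕ => a = b) := Primrec.eq
    exact h.decide.to_comp.comp
      (hg.comp (Computable.fst.comp Computable.fst) (Computable.fst.comp Computable.snd))
      (hg.comp (Computable.fst.comp Computable.fst)
        (Computable.fst.comp (Computable.snd.comp Computable.fst)))
  have a3 : Computable₂ (fun (q : ℕ × (ℕ × ℕ)) (z : ℕ × Bool) =>
      z.2 && (decide (z.1 < q.2.1) || decide (g q.1 z.1 = g q.1 q.2.1))) :=
    Primrec.and.to_comp.comp (Computable.snd.comp Computable.snd)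
      (Primrec.or.to_comp.comp a1 a2)
  have h := Computable.nat_rec (f := fun q : ℕ × (ℕ × ℕ) => q.2.2) (g := fun _ => true)
    (Computable.snd.comp Computable.snd) (Computable.const true) a3
  refine h.of_eq (fun q => ?_)
  generalize q.2.2 = m
  induction m with
  | zero => rfl
  | succ m ih => rw [cst, ← ih]

/-- limit computable functions with the property that the functions computable from them are
bounded by computable functions are computable -/
theorem limC_bounded {f : ℕ → ℕ} (hl : LimC f)
    (hb : ∀ c : ℕ → ℕ, TR c f → ∃ b : ℕ → ℕ, Computable b ∧ ∀ n, c n ≤ b n) :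
    Computable f := by
  classical
  obtain ⟨g, hg, hlim⟩ := hl
  -- c (k, n) = least s ≥ n with g k s = f k
  let p : ℕ → ℕ := fun w =>
    if w.unpair.1.unpair.2 ≤ w.unpair.2 ∧
      g w.unpair.1.unpair.1 w.unpair.2 = f w.unpair.1.unpair.1 then 0 else 1
  have hp : TR p f := by
    let F : ℕ → ℕ := fun v =>
      if v.unpair.1.unpair.1.unpair.2 ≤ v.unpair.1.unpair.2 ∧
        g v.unpair.1.unpair.1.unpair.1 v.unpair.1.unpair.2 = v.unpair.2 then 0 else 1
    have u1 : Computable (fun z : ℕ => z.unpair.1) := Computable.fst.comp Computable.unpair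
    have u2 : Computable (fun z : ℕ => z.unpair.2) := Computable.snd.comp Computable.unpair
    have hF : Computable F := by
      have a1 : Computable (fun v : ℕ =>
          decide (v.unpair.1.unpair.1.unpair.2 ≤ v.unpair.1.unpair.2)) := by
        have h : PrimrecRel (fun a b : ℕ => a ≤ b) := Primrec.nat_le
        exact h.decide.to_comp.comp (u2.comp (u1.comp u1)) (u2.comp u1)
      have a2 : Computable (fun v : ℕ =>
          decide (g v.unpair.1.unpair.1.unpair.1 v.unpair.1.unpair.2 = v.unpair.2)) := by
        have h : PrimrecRel (fun a b : ℕ => a = b) := Primrec.eq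
        exact h.decide.to_comp.comp (hg.comp (u1.comp (u1.comp u1)) (u2.comp u1)) u2
      refine (Computable.cond (Primrec.and.to_comp.comp a1 a2) (Computable.const 0)
        (Computable.const 1)).of_eq (fun v => ?_)
      simp only [F]
      by_cases h1 : v.unpair.1.unpair.1.unpair.2 ≤ v.unpair.1.unpair.2 <;>
      by_cases h2 : g v.unpair.1.unpair.1.unpair.1 v.unpair.1.unpair.2 = v.unpair.2 <;>
        simp [h1, h2]
    have h1 : RecT {(f : ℕ →. ℕ)} (fun w => Nat.pair w (f w.unpair.1.unpair.1)) :=
      RecT.pair (Pool.Agent.Helper743.Computable.recT Computable.id)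
        ((TR.refl f).comp (Pool.Agent.Helper743.Computable.recT (u1.comp u1)))
    have h2 := (Pool.Agent.Helper743.Computable.recT (O := {(f : ℕ →. ℕ)}) hF).comp h1
    refine Nat.RecursiveIn.of_eq h2 (fun w => ?_)
    simp only [F, p, Nat.unpair_pair]
  have hex : ∀ a, ∃ n, p (Nat.pair a n) = 0 := by
    intro a
    obtain ⟨s0, hs0⟩ := hlim a.unpair.1
    refine ⟨max s0 a.unpair.2, ?_⟩
    simp only [p, Nat.unpair_pair]
    rw [if_pos ⟨le_max_right _ _, hs0 _ (le_max_left _ _)⟩]
  have hc : TR (fun a => Nat.find (hex a)) f := RecT.find hp hex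
  obtain ⟨b, hb1, hb2⟩ := hb _ hc
  have key : ∀ k n s, p (Nat.pair (Nat.pair k n) s) = 0 → n ≤ s ∧ g k s = f k := by
    intro k n s h1
    simp only [p, Nat.unpair_pair] at h1
    by_contra hc
    rw [if_neg hc] at h1
    exact absurd h1 one_ne_zero
  have hspec : ∀ k n, ∃ s, n ≤ s ∧ s ≤ b (Nat.pair k n) ∧ g k s = f k := by
    intro k n
    have h1 := key k n _ (Nat.find_spec (hex (Nat.pair k n)))
    exact ⟨_, h1.1, hb2 _, h1.2⟩
  have hq : Computable₂ (fun k n => cst g k n (b (Nat.pair k n) + 1)) := by
    have h1 : Computable (fun q : ℕ × ℕ => (q.1, (q.2, b (Nat.pair q.1 q.2) + 1))) :=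
      Computable.fst.pair (Computable.snd.pair (Computable.succ.comp (hb1.comp
        (Primrec₂.natPair.to_comp.comp Computable.fst Computable.snd))))
    exact (cst_c hg).comp h1
  obtain ⟨t, ht1, ht2⟩ := comp_find hq (fun k => by
    obtain ⟨s0, hs0⟩ := hlim k
    refine ⟨s0, cst_iff.2 (fun s h1 _ => ?_)⟩
    rw [hs0 s h1, hs0 s0 (le_refl _)])
  refine (hg.comp Computable.id ht1).of_eq (fun k => ?_)
  obtain ⟨s, h1, h2, h3⟩ := hspec k (t k)
  rw [← h3]
  exact (cst_iff.1 (ht2 k) s h1 (by omega)).symm

lemma computable_of_orc {X : ℕ → Bool} (h : Computable (orc X)) : Computable X := by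
  have h1 : Computable (fun n => decide (orc X n = 1)) := by
    have h2 : PrimrecRel (fun a b : ℕ => a = b) := Primrec.eq
    exact h2.decide.to_comp.comp h (Computable.const 1)
  refine h1.of_eq (fun n => ?_)
  unfold orc
  cases X n <;> rfl

theorem Good.not_below {X : ℕ → Bool} (h : Good X) {A : ℕ → Bool}
    (hA : REPred (fun n => A n = true)) : ¬ TR (orc X) (orc A) := by
  intro hXA
  have h1 : orc A = chi (fun n => A n = true) := by
    funext n
    unfold orc chi
    by_cases h2 : A n = true
    · rw [if_pos h2, h2]; rfl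
    · rw [if_neg h2, Bool.not_eq_true] at *
      rw [h2]; rfl
  rw [h1] at hXA
  have h2 : TR (orc X) K := hXA.trans (chi_TR_K hA)
  exact h.not_computable (computable_of_orc (limC_bounded (LimC.of_TR_K h2)
    (fun c hc => h.bounded hc)))

/-- no real Turing equivalent to `X` has a self-modulus -/
theorem Good.no_modulus {X : ℕ → Bool} (h : Good X) {Y : ℕ → Bool} (h1 : TR (orc Y) (orc X))
    (h2 : TR (orc X) (orc Y)) :
    ¬ ∃ f : ℕ → ℕ, TR f (orc Y) ∧ ∀ g : ℕ → ℕ, (∀ n, f n ≤ g n) → TR (orc Y) g := by
  rintro ⟨f, h3, h4⟩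
  obtain ⟨g, h5, h6⟩ := h.bounded (h3.trans h1)
  have h7 : TR (orc X) g := h2.trans (h4 g h6)
  exact h.not_computable (computable_of_orc (Pool.Agent.Helper743.TR_const h5 h7))

/-! hyperarithmetic -/

/-- the real coded at even positions -/
def Yl (l : List ℕ) (i : ℕ) : Bool := decide (l.getD (2*i) 0 ≠ 0)

/-- the computable matrix of the definition of `X` -/
def Mx (b : Bool) (n : ℕ) (l : List ℕ) : Prop :=
  ((List.range (l.length/2)).map (Yl l) ∈ G (l.length/2) ∧
  ∀ z ∈ List.range l.length, (¬ (2*z.unpair.1+1 < l.length) ∨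
    ¬ (2 * l.getD (2*z.unpair.1+1) 0 < l.length)) ∨
    Code.evaln z.unpair.2 (Denumerable.ofNat Code z.unpair.1) (l.getD (2*z.unpair.1+1) 0) ≠
      some (Yl l (l.getD (2*z.unpair.1+1) 0)).toNat) ∧
  (¬ (2*n < l.length) ∨ Yl l n = b)

lemma Yl_p : Primrec₂ Yl := by
  have h1 : PrimrecPred (fun q : List ℕ × ℕ => q.1.getD (2*q.2) 0 = 0) :=
    Primrec.eq.comp ((Primrec.list_getD 0).comp Primrec.fst (Primrec.nat_mul.comp
      (Primrec.const 2) Primrec.snd)) (Primrec.const 0)
  exact h1.not.decide

lemma Mx_p (b : Bool) : PrimrecPred (fun q : ℕ × List ℕ => Mx b q.1 q.2) := by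
  have hl : Primrec (fun q : ℕ × List ℕ => q.2.length) := Primrec.list_length.comp Primrec.snd
  have h1 : PrimrecPred (fun q : ℕ × List ℕ =>
      (List.range (q.2.length/2)).map (Yl q.2) ∈ G (q.2.length/2)) := by
    have a1 : Primrec (fun q : ℕ × List ℕ => (List.range (q.2.length/2)).map (Yl q.2)) :=
      Primrec.list_map (Primrec.list_range.comp (Primrec.nat_div.comp hl (Primrec.const 2)))
        (Yl_p.comp (Primrec.snd.comp Primrec.fst) Primrec.snd)
    have a2 : PrimrecRel (fun (σ τ : List Bool) => σ = τ) := Primrec.eq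
    have a3 := a2.exists_mem_list.comp (G_p.comp (Primrec.nat_div.comp hl (Primrec.const 2))) a1
    exact a3.of_eq (fun q => by simp)
  have h2 : PrimrecRel (fun (z : ℕ) (l : List ℕ) => (¬ (2*z.unpair.1+1 < l.length) ∨
      ¬ (2 * l.getD (2*z.unpair.1+1) 0 < l.length)) ∨
      Code.evaln z.unpair.2 (Denumerable.ofNat Code z.unpair.1) (l.getD (2*z.unpair.1+1) 0) ≠
      some (Yl l (l.getD (2*z.unpair.1+1) 0)).toNat) := by
    have e1 : Primrec (fun w : ℕ × List ℕ => w.1.unpair.1) :=
      Primrec.fst.comp (Primrec.unpair.comp Primrec.fst)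
    have e2 : Primrec (fun w : ℕ × List ℕ => w.1.unpair.2) :=
      Primrec.snd.comp (Primrec.unpair.comp Primrec.fst)
    have e3 : Primrec (fun w : ℕ × List ℕ => 2*w.1.unpair.1+1) :=
      Primrec.succ.comp (Primrec.nat_mul.comp (Primrec.const 2) e1)
    have e4 : Primrec (fun w : ℕ × List ℕ => w.2.getD (2*w.1.unpair.1+1) 0) :=
      (Primrec.list_getD 0).comp Primrec.snd e3
    have e5 : Primrec (fun w : ℕ × List ℕ => w.2.length) := Primrec.list_length.comp Primrec.snd
    have e6 : Primrec (fun w : ℕ × List ℕ => Code.evaln w.1.unpair.2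
        (Denumerable.ofNat Code w.1.unpair.1) (w.2.getD (2*w.1.unpair.1+1) 0)) :=
      Code.primrec_evaln.comp ((e2.pair ((Primrec.ofNat Code).comp e1)).pair e4)
    have e7 : Primrec (fun w : ℕ × List ℕ =>
        some (Yl w.2 (w.2.getD (2*w.1.unpair.1+1) 0)).toNat) :=
      Primrec.option_some.comp ((Primrec.dom_finite Bool.toNat).comp (Yl_p.comp Primrec.snd e4))
    exact PrimrecPred.or (PrimrecPred.or (Primrec.nat_lt.comp e3 e5).not
      (Primrec.nat_lt.comp (Primrec.nat_mul.comp (Primrec.const 2) e4) e5).not)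
      (Primrec.eq.comp e6 e7).not
  have h3 : PrimrecPred (fun q : ℕ × List ℕ => (¬ (2*q.1 < q.2.length) ∨ Yl q.2 q.1 = b)) :=
    PrimrecPred.or (Primrec.nat_lt.comp (Primrec.nat_mul.comp (Primrec.const 2) Primrec.fst)
      hl).not (Primrec.eq.comp (Yl_p.comp Primrec.snd Primrec.fst) (Primrec.const b))
  exact PrimrecPred.and (PrimrecPred.and h1
    (h2.forall_mem_list.comp (Primrec.list_range.comp hl) Primrec.snd)) h3

lemma getD_range (f : ℕ → ℕ) {i m : ℕ} (h : i < m) :
    ((List.range m).map f).getD i 0 = f i := by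
  rw [List.getD_eq_getElem _ _ (by simpa using h)]
  simp

lemma Yl_range (f : ℕ → ℕ) {i m : ℕ} (h : 2*i < m) :
    Yl ((List.range m).map f) i = decide (f (2*i) ≠ 0) := by
  unfold Yl
  rw [getD_range f h]

theorem Good.sigma {X : ℕ → Bool} (h : Good X) (b : Bool) (n : ℕ) :
    X n = b ↔ ∃ f : ℕ → ℕ, ∀ m, Mx b n ((List.range m).map f) := by
  constructor
  · intro hb
    choose p hp using h.nc
    let f : ℕ → ℕ := fun k => if k % 2 = 0 then (X (k/2)).toNat
      else p (Denumerable.ofNat Code (k/2))
    have f0 : ∀ i, f (2*i) = (X i).toNat := by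
      intro i
      simp only [f]
      rw [if_pos (by omega), Nat.mul_div_cancel_left _ (by norm_num)]
    have f1 : ∀ i, f (2*i+1) = p (Denumerable.ofNat Code i) := by
      intro i
      simp only [f]
      rw [if_neg (by omega)]
      congr 2
      omega
    have f2 : ∀ i, decide (f (2*i) ≠ 0) = X i := by
      intro i
      rw [f0]
      cases X i <;> rfl
    refine ⟨f, fun m => ⟨⟨?_, ?_⟩, ?_⟩⟩
    · rw [List.length_map, List.length_range]
      have h1 : (List.range (m/2)).map (Yl ((List.range m).map f)) = bp X (m/2) := by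
        unfold bp
        apply List.map_congr_left
        intro i hi
        rw [List.mem_range] at hi
        rw [Yl_range f (by omega), f2]
      rw [h1]
      exact h.inP _
    · intro z hz
      rw [List.length_map, List.length_range]
      by_cases h1 : 2*z.unpair.1+1 < m
      · rw [getD_range f h1]
        by_cases h2 : 2 * f (2*z.unpair.1+1) < m
        · right
          rw [Yl_range f h2, f2, f1]
          exact hp _ _
        · left; right; exact h2
      · left; left; exact h1
    · rw [List.length_map, List.length_range]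
      by_cases h1 : 2*n < m
      · right
        rw [Yl_range f h1, f2]
        exact hb
      · left; exact h1
  · rintro ⟨f, hf⟩
    let Y : ℕ → Bool := fun i => decide (f (2*i) ≠ 0)
    have hY : InP Y := by
      intro t
      have h1 := (hf (2*t)).1.1
      rw [List.length_map, List.length_range, Nat.mul_div_cancel_left _ (by norm_num)] at h1
      have h2 : (List.range t).map (Yl ((List.range (2*t)).map f)) = bp Y t := by
        unfold bp
        apply List.map_congr_left
        intro i hi
        rw [List.mem_range] at hi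
        rw [Yl_range f (by omega)]
      rwa [h2] at h1
    have hn : ¬ Computable Y := by
      intro hc
      have h1 : Nat.Partrec (fun n => Part.some (Y n).toNat) := by
        refine Partrec.nat_iff.1 ?_
        have : Computable (fun n => (Y n).toNat) :=
          (Primrec.dom_finite Bool.toNat).to_comp.comp hc
        exact this
      obtain ⟨c, hc⟩ := Code.exists_code.1 h1
      set e := Encodable.encode c with he
      set q := f (2*e+1) with hq
      have h2 : (Y q).toNat ∈ c.eval q := by rw [hc]; exact Part.mem_some _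
      obtain ⟨s, hs⟩ := Code.evaln_complete.1 h2
      have h3 := (hf (Nat.pair e s + 1 + (2*e+2) + (2*q+1))).1.2 (Nat.pair e s) (by
        rw [List.mem_range, List.length_map, List.length_range]; omega)
      rw [List.length_map, List.length_range, Nat.unpair_pair] at h3
      simp only at h3
      rw [getD_range f (by omega), ← hq, Yl_range f (by omega)] at h3
      rcases h3 with (h3 | h3) | h3
      · omega
      · omega
      · apply h3
        rw [he, Denumerable.ofNat_encode]
        exact hs
    have hYX : Y = X := by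
      by_contra hne
      exact hn ((h.thin Y hY hne).computable hY)
    have h1 := (hf (2*n+1)).2
    rw [List.length_map, List.length_range, Yl_range f (by omega)] at h1
    rcases h1 with h1 | h1
    · omega
    · rw [← hYX]; exact h1

end Pool.Agent.TH738.NR
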