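import Pool.Agent.TH738.NR.Assemble

set_option autoImplicit false

/-! Consequences of the construction. -/

namespace Pool.Agent.TH738.NR

open Nat.Partrec (Code)
open Pool.Agent.Helper743 (TR pre pre_length use_principle pre_getElem?)
open Pool.Agent.Helper743.PR (evT evR evR_spec evT_p)
open Pool.Agent.Helper743.AC (ev_code evT_evR)

/-- unbounded search -/
lemma comp_find {p : ℕ → ℕ → Bool} (hp : Computable₂ p) (h : ∀ n, ∃ t, p n t = true) :
    ∃ f : ℕ → ℕ, Computable f ∧ ∀ n, p n (f n) = true := by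
  have hq : Partrec (fun n : ℕ => Nat.rfind (fun t => (Part.some (p n t) : Part Bool))) :=
    Partrec.rfind hp.partrec₂
  have hd : ∀ n, (Nat.rfind (fun t => (Part.some (p n t) : Part Bool))).Dom := by
    intro n
    obtain ⟨t, ht⟩ := h n
    refine (Nat.rfind_dom (p := fun t => (Part.some (p n t) : Part Bool))).2 ?_
    exact ⟨t, by rw [ht]; exact Part.mem_some _, fun {m} _ => trivial⟩
  refine ⟨fun n => (Nat.rfind (fun t => (Part.some (p n t) : Part Bool))).get (hd n), ?_, ?_⟩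
  · exact hq.of_eq (fun n => (Part.some_get (hd n)).symm)
  · intro n
    have h1 := Nat.rfind_spec (Part.get_mem (hd n))
    rw [Part.mem_some_iff] at h1
    exact h1.symm

lemma bp_get (Y : ℕ → Bool) {n t : ℕ} (h : n < t) : (bp Y t).getD n false = Y n := by
  rw [List.getD_eq_getElem _ _ (by simpa using h)]
  simp [bp]

/-- the strings of the class of length `t` that extend `ρ` -/
def FG (ρ : List Bool) (t : ℕ) : List (List Bool) :=
  (G t).filter (fun τ => decide (τ.take ρ.length = ρ))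

lemma FG_p (ρ : List Bool) : Primrec (FG ρ) := by
  have h1 : PrimrecPred (fun τ : List Bool => τ.take ρ.length = ρ) :=
    Primrec.eq.comp (Primrec.list_take.comp (Primrec.const _) Primrec.id) (Primrec.const ρ)
  exact (Primrec.listFilter h1).comp G_p

lemma mem_FG {ρ : List Bool} {t : ℕ} {τ : List Bool} : τ ∈ FG ρ t ↔ τ ∈ G t ∧ ρ <+: τ := by
  unfold FG
  rw [List.mem_filter, decide_eq_true_iff, List.prefix_iff_eq_take]
  exact and_congr_right (fun _ => eq_comm)

theorem Thin.computable {Y : ℕ → Bool} (hY : InP Y) (h : Thin Y) : Computable Y := by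
  obtain ⟨ρ, hρ, h⟩ := h
  let p : ℕ → ℕ → Prop := fun n t => (n < t ∧ ρ.length ≤ t) ∧ ∀ τ ∈ FG ρ t, τ = (FG ρ t).headI
  have hp : PrimrecRel p := by
    have h1 : PrimrecPred (fun q : ℕ × ℕ => q.1 < q.2 ∧ ρ.length ≤ q.2) :=
      PrimrecPred.and (Primrec.nat_lt.comp Primrec.fst Primrec.snd)
        (Primrec.nat_le.comp (Primrec.const _) Primrec.snd)
    have h2 : PrimrecRel (fun (τ : List Bool) (t : ℕ) => τ = (FG ρ t).headI) :=
      Primrec.eq.comp Primrec.fst (Primrec.list_headI.comp ((FG_p ρ).comp Primrec.snd))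
    have h3 : PrimrecPred (fun q : ℕ × ℕ => ∀ τ ∈ FG ρ q.2, τ = (FG ρ q.2).headI) :=
      h2.forall_mem_list.comp ((FG_p ρ).comp Primrec.snd) Primrec.snd
    exact PrimrecPred.and h1 h3
  classical
  obtain ⟨f, hf, hf2⟩ := comp_find (p := fun n t => decide (p n t)) hp.decide.to_comp (by
    intro n
    obtain ⟨t, h1, h2⟩ := h (n + 1 + ρ.length)
    refine ⟨t, decide_eq_true ⟨⟨by omega, by omega⟩, fun τ hτ => ?_⟩⟩
    have h3 : (FG ρ t).headI ∈ FG ρ t := by
      cases hc : FG ρ t with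
      | nil => rw [hc] at hτ; simp at hτ
      | cons a l => exact List.mem_cons_self
    rw [mem_FG] at h3 hτ
    exact h2 τ hτ.1 _ h3.1 hτ.2 h3.2)
  have hg : Computable (fun n => ((FG ρ (f n)).headI).getD n false) :=
    (Primrec.list_getD false).to_comp.comp (Primrec.list_headI.to_comp.comp
      ((FG_p ρ).to_comp.comp hf)) Computable.id
  refine hg.of_eq (fun n => ?_)
  obtain ⟨⟨h1, h2⟩, h3⟩ := of_decide_eq_true (hf2 n)
  rw [← h3 (bp Y (f n)) (mem_FG.2 ⟨hY _, (Sb_iff h2).1 hρ⟩)]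
  exact bp_get Y h1

theorem Good.not_computable {X : ℕ → Bool} (h : Good X) : ¬ Computable X := by
  intro hc
  have h1 : Nat.Partrec (fun n => Part.some (X n).toNat) := by
    refine Partrec.nat_iff.1 ?_
    have : Computable (fun n => (X n).toNat) :=
      (Primrec.dom_finite Bool.toNat).to_comp.comp hc
    exact this
  obtain ⟨c, hc⟩ := Code.exists_code.1 h1
  obtain ⟨p, hp⟩ := h.nc c
  have h2 : (X p).toNat ∈ c.eval p := by rw [hc]; exact Part.mem_some _
  obtain ⟨t, ht⟩ := Code.evaln_complete.1 h2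
  exact hp t ht

theorem countable_computable : {Y : ℕ → Bool | Computable Y}.Countable := by
  classical
  refine (Set.countable_range (fun (c : Code) (n : ℕ) => decide (1 ∈ c.eval n))).mono ?_
  intro Y hY
  have h1 : Nat.Partrec (fun n => Part.some (Y n).toNat) := by
    refine Partrec.nat_iff.1 ?_
    have : Computable (fun n => (Y n).toNat) :=
      (Primrec.dom_finite Bool.toNat).to_comp.comp hY
    exact this
  obtain ⟨c, hc⟩ := Code.exists_code.1 h1
  refine ⟨c, ?_⟩
  funext n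
  have h2 : c.eval n = Part.some (Y n).toNat := by rw [hc]
  change decide (1 ∈ c.eval n) = Y n
  rw [h2]
  cases h : Y n <;> simp

theorem Good.countable {X : ℕ → Bool} (h : Good X) : {Y | InP Y}.Countable := by
  refine ((Set.countable_singleton X).union countable_computable).mono ?_
  intro Y hY
  by_cases hYX : Y = X
  · exact Or.inl hYX
  · exact Or.inr ((h.thin Y hY hYX).computable hY)

/-! functions computed by `X` -/

/-- the real as an oracle -/
def orc (X : ℕ → Bool) (n : ℕ) : ℕ := (X n).toNat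

lemma pre_orc (X : ℕ → Bool) (j : ℕ) : pre (orc X) j = nb (bp X j) := by
  unfold pre nb bp orc
  rw [List.map_map]; rfl

lemma nb_bp_take (X : ℕ → Bool) {j t : ℕ} (h : j ≤ t) :
    (nb (bp X t)).take j = pre (orc X) j := by
  rw [← nb_take, bp_take X h, pre_orc]

/-- the values of a functional -/
structure Fnl (e : ℕ) (ev : List ℕ → ℕ → Option ℕ) : Prop where
  mono : ∀ σ τ x y, σ <+: τ → ev σ x = some y → ev τ x = some y
  code : ∀ σ x, evR e σ x = Encodable.encode (ev σ x)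

lemma exists_fnl {X : ℕ → Bool} {f : ℕ → ℕ} (h : TR f (orc X)) :
    ∃ e ev, Fnl e ev ∧ ∀ x, ∃ n, ev (pre (orc X) n) x = some (f x) := by
  obtain ⟨ev, h1, h2, h3⟩ := use_principle (orc X) _ h
  obtain ⟨e, he⟩ := ev_code h1
  refine ⟨e, ev, ⟨h2, he⟩, fun x => ?_⟩
  exact (h3 x (f x)).1 (Part.mem_some _)

lemma Fnl.val {e : ℕ} {ev : List ℕ → ℕ → Option ℕ} (h : Fnl e ev) {t n : ℕ} {σ : List ℕ}
    (hc : evT t e σ n ≠ 0) : ∃ y, ev σ n = some y ∧ evT t e σ n = y + 1 := by
  have h1 := evT_evR hc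
  rw [h.code] at h1
  cases h2 : ev σ n with
  | none => rw [h2] at h1; rw [h1] at hc; simp at hc
  | some y => rw [h2] at h1; exact ⟨y, rfl, h1⟩

lemma Fnl.ex {e : ℕ} {ev : List ℕ → ℕ → Option ℕ} (h : Fnl e ev) {n y : ℕ} {σ : List ℕ}
    (hc : ev σ n = some y) : ∀ s, ∃ t, s ≤ t ∧ evT t e σ n = y + 1 := by
  intro s
  obtain ⟨t, h1, h2⟩ := ((evR_spec e σ n).and (Filter.eventually_ge_atTop s)).exists
  refine ⟨t, h2, ?_⟩
  rw [h1, h.code, hc]; rfl

lemma Fnl.uniq {e : ℕ} {ev : List ℕ → ℕ → Option ℕ} (h : Fnl e ev) {Y : ℕ → Bool}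
    {m n x y z : ℕ} (h1 : ev (pre (orc Y) m) x = some y) (h2 : ev (pre (orc Y) n) x = some z) :
    y = z := by
  rcases le_total m n with hmn | hmn
  · have := h.mono _ _ _ _ (Pool.Agent.Helper743.pre_prefix (orc Y) hmn) h1
    rw [this] at h2; exact Option.some.inj h2
  · have := h.mono _ _ _ _ (Pool.Agent.Helper743.pre_prefix (orc Y) hmn) h2
    rw [this] at h1; exact (Option.some.inj h1).symm

/-- functionals total on `X` are total on the class near `X` -/
theorem Good.total {X : ℕ → Bool} (h : Good X) {e : ℕ} {ev : List ℕ → ℕ → Option ℕ}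
    (he : Fnl e ev) (ht : ∀ x, ∃ n y, ev (pre (orc X) n) x = some y) :
    ∃ ρ, Sb ρ X ∧ ∀ n, ∃ t, ρ.length ≤ t ∧ ∀ τ ∈ G t, ρ <+: τ → cv t e τ n := by
  rcases h.hif e with ⟨n, hn⟩ | h1
  · exfalso
    obtain ⟨m, y, hy⟩ := ht n
    obtain ⟨t, h1, h2⟩ := he.ex hy m
    refine hn t ⟨m, ?_, ?_⟩
    · rw [List.mem_range, bp_length]; omega
    · rw [nb_bp_take X h1, h2]; exact Nat.succ_ne_zero _
  · exact h1

/-- a bound for the values of the functional `e` at stage `t` above `ρ` -/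
def bd (ρ : List Bool) (e n t : ℕ) : ℕ :=
  ((FG ρ t).flatMap (fun τ => (List.range (t+1)).map (fun j =>
    evT t e ((nb τ).take j) n))).foldr (fun a b => a + b) 0

lemma le_foldr {l : List ℕ} {x : ℕ} (h : x ∈ l) : x ≤ l.foldr (fun a b => a + b) 0 := by
  induction l with
  | nil => simp at h
  | cons a l ih =>
    rw [List.foldr_cons]
    rcases List.mem_cons.1 h with h | h
    · omega
    · have := ih h; omega

lemma bd_p (ρ : List Bool) (e : ℕ) : Primrec₂ (bd ρ e) := by
  unfold bd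
  have h1 : Primrec (fun z : ((ℕ × ℕ) × List Bool) × ℕ =>
      evT z.1.1.2 e ((nb z.1.2).take z.2) z.1.1.1) :=
    evT_p.comp (((Primrec.snd.comp (Primrec.fst.comp Primrec.fst)).pair (Primrec.const e)).pair
      ((Primrec.list_take.comp Primrec.snd (nb_p.comp (Primrec.snd.comp Primrec.fst))).pair
        (Primrec.fst.comp (Primrec.fst.comp Primrec.fst))))
  have h2 : Primrec (fun z : (ℕ × ℕ) × List Bool => (List.range (z.1.2+1)).map (fun j =>
      evT z.1.2 e ((nb z.2).take j) z.1.1)) :=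
    Primrec.list_map (Primrec.list_range.comp (Primrec.succ.comp
      (Primrec.snd.comp Primrec.fst))) h1
  have h3 : Primrec (fun z : ℕ × ℕ => (FG ρ z.2).flatMap (fun τ =>
      (List.range (z.2+1)).map (fun j => evT z.2 e ((nb τ).take j) z.1))) :=
    Primrec.list_flatMap ((FG_p ρ).comp Primrec.snd) h2
  have h4 : Primrec₂ (fun (_ : ℕ × ℕ) (z : ℕ × ℕ) => z.1 + z.2) :=
    Primrec.nat_add.comp (Primrec.fst.comp Primrec.snd) (Primrec.snd.comp Primrec.snd)
  exact Primrec.list_foldr h3 (Primrec.const 0) h4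

/-- every function computable from `X` is bounded by a computable function -/
theorem Good.bounded {X : ℕ → Bool} (h : Good X) {f : ℕ → ℕ} (hf : TR f (orc X)) :
    ∃ g : ℕ → ℕ, Computable g ∧ ∀ n, f n ≤ g n := by
  obtain ⟨e, ev, he, hv⟩ := exists_fnl hf
  obtain ⟨ρ, hρ, ht⟩ := h.total he (fun x => by
    obtain ⟨n, hn⟩ := hv x; exact ⟨n, _, hn⟩)
  let p : ℕ → ℕ → Prop := fun n t => ρ.length ≤ t ∧ ∀ τ ∈ FG ρ t, cv t e τ n
  have hp : PrimrecRel p := by
    have h1 : PrimrecPred (fun q : ℕ × ℕ => ρ.length ≤ q.2) :=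
      Primrec.nat_le.comp (Primrec.const _) Primrec.snd
    have h2 : PrimrecRel (fun (τ : List Bool) (q : ℕ × ℕ) => cv q.2 e τ q.1) :=
      cv_p.comp (((Primrec.snd.comp Primrec.snd).pair (Primrec.const e)).pair
        (Primrec.fst.pair (Primrec.fst.comp Primrec.snd)))
    have h3 : PrimrecPred (fun q : ℕ × ℕ => ∀ τ ∈ FG ρ q.2, cv q.2 e τ q.1) :=
      h2.forall_mem_list.comp ((FG_p ρ).comp Primrec.snd) Primrec.id
    exact PrimrecPred.and h1 h3
  classical
  obtain ⟨t, ht1, ht2⟩ := comp_find (p := fun n t => decide (p n t)) hp.decide.to_comp (by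
    intro n
    obtain ⟨t, h1, h2⟩ := ht n
    exact ⟨t, decide_eq_true ⟨h1, fun τ hτ => h2 τ (mem_FG.1 hτ).1 (mem_FG.1 hτ).2⟩⟩)
  refine ⟨fun n => bd ρ e n (t n), (bd_p ρ e).to_comp.comp Computable.id ht1, fun n => ?_⟩
  obtain ⟨h1, h2⟩ := of_decide_eq_true (ht2 n)
  have hX : bp X (t n) ∈ FG ρ (t n) := mem_FG.2 ⟨h.inP _, (Sb_iff h1).1 hρ⟩
  obtain ⟨j, hj, hj2⟩ := h2 _ hX
  rw [List.mem_range, bp_length] at hj
  have hj3 := hj2
  rw [nb_bp_take X (by omega)] at hj3
  obtain ⟨y, hy1, hy2⟩ := he.val hj3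
  obtain ⟨m, hm⟩ := hv n
  have hyf := he.uniq hy1 hm
  subst hyf
  have h3 : evT (t n) e ((nb (bp X (t n))).take j) n ≤ bd ρ e n (t n) := by
    unfold bd
    apply le_foldr
    rw [List.mem_flatMap]
    refine ⟨bp X (t n), hX, List.mem_map.2 ⟨j, ?_, rfl⟩⟩
    rw [List.mem_range]; omega
  rw [nb_bp_take X (by omega), hy2] at h3
  change f n ≤ bd ρ e n (t n)
  omega

end Pool.Agent.TH738.NR
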