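import Pool.Agent.Helper743.ACAvoid

set_option autoImplicit false

/-! A countable effectively closed class with a noncomputable member of hyperimmune free degree:
the construction, as a computable sequence of finite lists of strings. -/

namespace Pool.Agent.TH738.NR

open Nat.Partrec (Code)
open Pool.Agent.Helper743.PR (evT)

/-- frames: the states of the strategies of one level of the construction -/
inductive Fr where
  | un (p : ℕ)
  | sw
  | inf (n : ℕ)
  | fin (n b c k : ℕ)

/-- frames as a sum type -/
def Fr.toS : Fr → (ℕ ⊕ ℕ) ⊕ (ℕ × (ℕ × (ℕ × ℕ)))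
  | .un p => Sum.inl (Sum.inl (p+1))
  | .sw => Sum.inl (Sum.inl 0)
  | .inf n => Sum.inl (Sum.inr n)
  | .fin n b c k => Sum.inr (n, (b, (c, k)))

def Fr.ofS : (ℕ ⊕ ℕ) ⊕ (ℕ × (ℕ × (ℕ × ℕ))) → Fr
  | Sum.inl (Sum.inl 0) => .sw
  | Sum.inl (Sum.inl (p+1)) => .un p
  | Sum.inl (Sum.inr n) => .inf n
  | Sum.inr (n, (b, (c, k))) => .fin n b c k

def Fr.eqv : Fr ≃ (ℕ ⊕ ℕ) ⊕ (ℕ × (ℕ × (ℕ × ℕ))) where
  toFun := Fr.toS
  invFun := Fr.ofS
  left_inv := by intro f; cases f <;> rfl
  right_inv := by
    intro s
    rcases s with (m | n) | ⟨n, b, c, k⟩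
    · cases m <;> rfl
    · rfl
    · rfl

instance : Primcodable Fr := Primcodable.ofEquiv _ Fr.eqv

lemma Fr.toS_p : Primrec Fr.toS := Primrec.of_equiv (e := Fr.eqv)

lemma Fr.ofS_p : Primrec Fr.ofS := Primrec.of_equiv_symm (e := Fr.eqv)

lemma Fr.inf_p : Primrec Fr.inf :=
  Fr.ofS_p.comp (Primrec.sumInl.comp Primrec.sumInr)

lemma Fr.un_p : Primrec Fr.un :=
  (Fr.ofS_p.comp (Primrec.sumInl.comp (Primrec.sumInl.comp Primrec.succ)))

lemma Fr.fin_p : Primrec (fun q : ℕ × (ℕ × (ℕ × ℕ)) => Fr.fin q.1 q.2.1 q.2.2.1 q.2.2.2) :=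
  Fr.ofS_p.comp Primrec.sumInr

section cases
variable {α σ : Type*} [Primcodable α] [Primcodable σ]

/-- case distinction on frames -/
def Fr.cs (f : Fr) (g1 : ℕ → σ) (g2 : σ) (g3 : ℕ → σ) (g4 : ℕ × (ℕ × (ℕ × ℕ)) → σ) : σ :=
  match f with
  | .un p => g1 p
  | .sw => g2
  | .inf n => g3 n
  | .fin n b c k => g4 (n, (b, (c, k)))

lemma Fr.cs_p {f : α → Fr} {g1 : α → ℕ → σ} {g2 : α → σ} {g3 : α → ℕ → σ}
    {g4 : α → ℕ × (ℕ × (ℕ × ℕ)) → σ} (hf : Primrec f) (h1 : Primrec₂ g1) (h2 : Primrec g2)
    (h3 : Primrec₂ g3) (h4 : Primrec₂ g4) :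
    Primrec (fun a => Fr.cs (f a) (g1 a) (g2 a) (g3 a) (g4 a)) := by
  have c1 : Primrec₂ (fun (a : α) (m : ℕ) => (Nat.casesOn m (g2 a) (g1 a) : σ)) :=
    Primrec.nat_casesOn Primrec.snd (h2.comp Primrec.fst)
      (h1.comp (Primrec.fst.comp Primrec.fst) Primrec.snd)
  have c2 : Primrec₂ (fun (a : α) (s : ℕ ⊕ ℕ) =>
      (Sum.casesOn s (fun m => (Nat.casesOn m (g2 a) (g1 a) : σ)) (g3 a) : σ)) :=
    Primrec.sumCasesOn Primrec.snd
      (c1.comp (Primrec.fst.comp Primrec.fst) Primrec.snd)
      (h3.comp (Primrec.fst.comp Primrec.fst) Primrec.snd)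
  have c3 := Primrec.sumCasesOn (Fr.toS_p.comp hf) c2 h4
  refine c3.of_eq ?_
  intro a
  cases f a <;> rfl

end cases

section rec
variable {α β γ : Type*} [Primcodable α] [Primcodable β] [Primcodable γ]

/-- recursion on lists with changing parameters -/
theorem rec_param {g : β → γ} {k : α → β → β} {h : α × (List α × β) → γ → γ} (hg : Primrec g)
    (hk : Primrec₂ k) (hh : Primrec₂ h) {F : List α → β → γ} (h0 : ∀ b, F [] b = g b)
    (h1 : ∀ a l b, F (a :: l) b = h (a, (l, b)) (F l (k a b))) : Primrec₂ F := by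
  -- states: the rest of the list, the stack, the parameter
  let stp : List α × (List (α × (List α × β)) × β) → α →
      List α × (List (α × (List α × β)) × β) :=
    fun s a => (s.1.tail, ((a, (s.1.tail, s.2.2)) :: s.2.1, k a s.2.2))
  let D : List α → β → List (α × (List α × β)) → List α × (List (α × (List α × β)) × β) :=
    fun l b S => l.foldl stp (l, (S, b))
  have hD : ∀ (l : List α) (b : β) (S : List (α × (List α × β))),
      (D l b S).2.1.foldl (fun r x => h x r) (g (D l b S).2.2) =
        S.foldl (fun r x => h x r) (F l b) := by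
    intro l
    induction l with
    | nil => intro b S; simp [D, h0]
    | cons a l ih =>
      intro b S
      have : D (a :: l) b S = D l (k a b) ((a, (l, b)) :: S) := by
        simp only [D, List.foldl_cons]
        rfl
      rw [this, ih, List.foldl_cons, h1]
  have hstp : Primrec₂ (fun (_ : List α × β) (z : (List α × (List (α × (List α × β)) × β)) × α) =>
      stp z.1 z.2) := by
    have a1 : Primrec (fun z : (List α × β) × ((List α × (List (α × (List α × β)) × β)) × α) =>
        z.2.1.1.tail) :=
      Primrec.list_tail.comp (Primrec.fst.comp (Primrec.fst.comp Primrec.snd))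
    have a2 : Primrec (fun z : (List α × β) × ((List α × (List (α × (List α × β)) × β)) × α) =>
        z.2.2) := Primrec.snd.comp Primrec.snd
    have a3 : Primrec (fun z : (List α × β) × ((List α × (List (α × (List α × β)) × β)) × α) =>
        z.2.1.2.2) := Primrec.snd.comp (Primrec.snd.comp (Primrec.fst.comp Primrec.snd))
    have a4 : Primrec (fun z : (List α × β) × ((List α × (List (α × (List α × β)) × β)) × α) =>
        z.2.1.2.1) := Primrec.fst.comp (Primrec.snd.comp (Primrec.fst.comp Primrec.snd))
    exact a1.pair ((Primrec.list_cons.comp (a2.pair (a1.pair a3)) a4).pair (hk.comp a2 a3))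
  have hDp : Primrec (fun q : List α × β => D q.1 q.2 []) :=
    Primrec.list_foldl Primrec.fst (Primrec.fst.pair ((Primrec.const []).pair Primrec.snd)) hstp
  have hfin : Primrec (fun q : List α × β =>
      (D q.1 q.2 []).2.1.foldl (fun r x => h x r) (g (D q.1 q.2 []).2.2)) := by
    have h2 : Primrec₂ (fun (_ : List α × β) (z : γ × (α × (List α × β))) => h z.2 z.1) :=
      hh.comp (Primrec.snd.comp Primrec.snd) (Primrec.fst.comp Primrec.snd)
    exact Primrec.list_foldl (Primrec.fst.comp (Primrec.snd.comp hDp))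
      (hg.comp (Primrec.snd.comp (Primrec.snd.comp hDp))) h2
  refine hfin.of_eq ?_
  intro q
  rw [hD]
  rfl

end rec

/-- strings of bits as strings of numbers -/
def nb (σ : List Bool) : List ℕ := σ.map Bool.toNat

/-- the functional `e` with oracle `σ` converges at `n` before stage `t` -/
def cv (t e : ℕ) (σ : List Bool) (n : ℕ) : Prop :=
  ∃ j ∈ List.range (σ.length + 1), evT t e ((nb σ).take j) n ≠ 0

instance (t e : ℕ) (σ : List Bool) (n : ℕ) : Decidable (cv t e σ n) := by
  unfold cv; infer_instance

/-- one step of the construction, at stage `t`, for the strategies from level `d` on -/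
def step (t : ℕ) : List Fr → ℕ → List (List Bool) → List Fr × List (List Bool)
  | [], d, L =>
      if d % 2 = 0 then ([Fr.un t], [L.headI ++ [false], L.headI ++ [true]])
      else ([Fr.inf 0], L.map (· ++ [false]))
  | Fr.un p :: fs, d, L =>
      if Code.evaln t (Denumerable.ofNat Code (d/2)) p = some 0 then
        ([Fr.sw], [L.reverse.headI ++ [false]])
      else (Fr.un p :: (step t fs (d+1) (L.take (L.length - 1))).1,
        (step t fs (d+1) (L.take (L.length - 1))).2 ++ [L.reverse.headI ++ [false]])
  | Fr.sw :: fs, d, L => (Fr.sw :: (step t fs (d+1) L).1, (step t fs (d+1) L).2)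
  | Fr.inf n :: fs, d, L =>
      if L.findIdx (fun σ => !decide (cv t (d/2) σ n)) < L.length then
        ([Fr.fin n (L.findIdx (fun σ => !decide (cv t (d/2) σ n)))
          (L.length - 1 - L.findIdx (fun σ => !decide (cv t (d/2) σ n)))
          (Encodable.encode fs)], L.map (· ++ [false]))
      else (Fr.inf (n+1) :: (step t fs (d+1) L).1, (step t fs (d+1) L).2)
  | Fr.fin n b c k :: fs, d, L =>
      if ((L.drop b).take (L.length - (b + c))).findIdx (fun σ => decide (cv t (d/2) σ n)) <
          ((L.drop b).take (L.length - (b + c))).length then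
        (Fr.inf n :: (Encodable.decode (α := List Fr) k).getD [],
          (L.take b ++ ([((L.drop b).take (L.length - (b + c))).getI
            (((L.drop b).take (L.length - (b + c))).findIdx (fun σ => decide (cv t (d/2) σ n)))] ++
              L.drop (L.length - c))).map (· ++ [false]))
      else (Fr.fin n b c k :: (step t fs (d+1) ((L.drop b).take (L.length - (b + c)))).1,
          (L.take b).map (· ++ [false]) ++
            ((step t fs (d+1) ((L.drop b).take (L.length - (b + c)))).2 ++
            (L.drop (L.length - c)).map (· ++ [false])))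

/-- the state of the construction at stage `t` -/
def St : ℕ → List Fr × List (List Bool)
  | 0 => ([], [[]])
  | t+1 => step t (St t).1 0 (St t).2

/-- the strings of length `t` that are still in the class at stage `t` -/
def G (t : ℕ) : List (List Bool) := (St t).2

end Pool.Agent.TH738.NR
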