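import Pool.Agent.TH738.NR.Run

set_option autoImplicit false

/-! The strategies of even level: the member of the class is not computable. -/

namespace Pool.Agent.TH738.NR

open Nat.Partrec (Code)

section even
variable {d : ℕ} {σ : List Bool} {T : ℕ → ℕ} {F : ℕ → List Fr} {L : ℕ → List (List Bool)}

lemma Run.even_start (R : Run d σ T F L) (hd : d % 2 = 0) :
    F 1 = [Fr.un (T 0)] ∧ ∃ τ0 τ1, L 1 = [τ0, τ1] ∧ σ ++ [false] <+: τ0 ∧ σ ++ [true] <+: τ1 := by
  have h1 := R.Fs 0
  have h2 := R.Ls 0
  rw [R.F0, R.L0, step_nil_even hd] at h1 h2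
  refine ⟨h1, ?_⟩
  obtain ⟨τ0, A, h3, h4, h5⟩ := h2.cons_left
  obtain ⟨τ1, h6, h7⟩ := h5.single
  subst h6
  exact ⟨τ0, τ1, h3, h4, h7⟩

lemma Run.even_un (R : Run d σ T F L) (hd : d % 2 = 0) {τ0 τ1 : List Bool} (hL : L 1 = [τ0, τ1])
    (k : ℕ) (hk : ∀ j, 1 ≤ j → j < k + 1 →
      Code.evaln (T j) (Denumerable.ofNat Code (d/2)) (T 0) ≠ some 0) :
    ∃ fs Ls ω, F (k+1) = Fr.un (T 0) :: fs ∧ L (k+1) = Ls ++ [ω] ∧ (∀ τ ∈ Ls, τ0 <+: τ) ∧
      τ1 <+: ω := by
  induction k with
  | zero =>
    refine ⟨[], [τ0], τ1, (R.even_start hd).1, hL, ?_, List.prefix_refl _⟩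
    intro τ hτ
    rw [List.mem_singleton] at hτ
    rw [hτ]
  | succ k ih =>
    obtain ⟨fs, Ls, ω, h1, h2, h3, h4⟩ := ih (fun j h1 h2 => hk j h1 (by omega))
    have h5 := R.Fs (k+1)
    have h6 := R.Ls (k+1)
    have hv := R.val (k+1)
    rw [h1, h2, step_un_un (hk (k+1) (by omega) (by omega))] at h5 h6
    obtain ⟨A', B', h7, h8, h9⟩ := h6.split
    obtain ⟨ω', rfl, h11⟩ := h9.single
    refine ⟨_, A', ω', h5, h7, fun τ hτ => ?_, h4.trans ((List.prefix_append _ _).trans h11)⟩
    obtain ⟨ρ, h12, h13⟩ := h8.mem hτ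
    rw [h1, h2] at hv
    have hv' : Val fs Ls.length := by
      generalize hm : (Ls ++ [ω]).length = m at hv
      cases hv with
      | un h =>
        simp at hm
        rw [hm]; exact h
    obtain ⟨ρ', h14, b, rfl⟩ := (step_all (T (k+1)) (d := d+1) hv').1.mem h12
    exact (h3 ρ' h14).trans ((List.prefix_append _ _).trans h13)

theorem Run.next_even (R : Run d σ T F L) (hd : d % 2 = 0) :
    ∃ σ' T' F' L', Run (d+1) σ' T' F' L' ∧ Nxt d σ σ' := by
  obtain ⟨hF1, τ0, τ1, hL1, h0, h1⟩ := R.even_start hd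
  have hlσ := R.len0
  have hτ0 : τ0.length = T 1 := R.len (by rw [hL1]; simp)
  have hτ1 : τ1.length = T 1 := R.len (by rw [hL1]; simp)
  have hT01 : T 0 < T 1 := R.mono (by omega)
  have hb0 : ∀ Y, Sb τ0 Y → Y (T 0) = false := by
    intro Y hY
    have h2 := (hY.mono h0).get (i := T 0) (by simp [hlσ])
    rw [h2, List.getElem_append_right (by omega)]
    simp
  have hb1 : ∀ Y, Sb τ1 Y → Y (T 0) = true := by
    intro Y hY
    have h2 := (hY.mono h1).get (i := T 0) (by simp [hlσ])
    rw [h2, List.getElem_append_right (by omega)]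
    simp
  have hne : ∀ τ, τ0 <+: τ → τ1 <+: τ → False := by
    intro τ h2 h3
    have h4 := eq_of_pre h2 h3 (by omega)
    subst h4
    have h5 : Sb (τ0) (fun i => τ0.getD i false) := by
      unfold Sb bp
      apply List.ext_getElem
      · simp
      · intro i h6 h7
        simp [List.getElem?_eq_getElem h7]
    have h6 := hb0 _ h5
    have h7 := hb1 _ h5
    rw [h6] at h7
    exact Bool.false_ne_true h7
  by_cases hA : ∀ j, 1 ≤ j →
      Code.evaln (T j) (Denumerable.ofNat Code (d/2)) (T 0) ≠ some 0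
  · -- never switched
    have hun := fun k => R.even_un hd hL1 k (fun j hj _ => hA j hj)
    choose fs Ls ω e1 e2 e3 e4 using hun
    have hsub : Run (d+1) τ0 (fun k => T (k+1)) fs Ls := by
      refine R.sub (κ := fun k => k+1) (fun a b h => Nat.succ_lt_succ h)
        ((List.prefix_append _ _).trans h0) ?_ ?_ ?_ ?_ ?_
      · have := e1 0
        rw [zero_add, hF1] at this
        simp at this
        exact this
      · have := e2 0
        rw [zero_add, hL1] at this
        have h2 : [τ0] ++ [τ1] = Ls 0 ++ [ω 0] := this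
        exact (List.append_inj' h2 rfl).1.symm
      · intro k
        have h5 := R.Fs (k+1)
        rw [e1 k, e2 k, step_un_un (hA (k+1) (by omega)), e1 (k+1)] at h5
        simp at h5
        exact h5
      · intro k
        have h6 := R.Ls (k+1)
        rw [e1 k, e2 k, step_un_un (hA (k+1) (by omega)), e2 (k+1)] at h6
        obtain ⟨A', B', h7, h8, h9⟩ := h6.split
        obtain ⟨ω', rfl, h11⟩ := h9.single
        have h10 := (List.append_inj' h7 rfl).1
        rw [h10]
        exact h8
      · intro k τ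
        rw [e2 k]
        constructor
        · intro h
          exact ⟨List.mem_append_left _ h, e3 k τ h⟩
        · rintro ⟨h, h'⟩
          rcases List.mem_append.1 h with h | h
          · exact h
          · rw [List.mem_singleton] at h
            subst h
            exact (hne _ h' (e4 k)).elim
    refine ⟨τ0, _, fs, Ls, hsub, ⟨(List.prefix_append _ _).trans h0, by omega, ?_, ?_, ?_⟩⟩
    · intro Y hY hs hn
      have hmem := R.inL hY hs
      refine ⟨τ1, ?_, ?_⟩
      · have h2 := hmem 1
        rw [hL1] at h2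
        rcases List.mem_cons.1 h2 with h3 | h3
        · exact (hn (by unfold Sb; rw [hτ0, h3])).elim
        · rw [List.mem_singleton] at h3
          unfold Sb; rw [hτ1, h3]
      · intro s
        refine ⟨T (s+1), (Nat.le_succ s).trans (R.Tk_ge (s+1)), ?_⟩
        have key : ∀ τ ∈ G (T (s+1)), τ1 <+: τ → τ = ω s := by
          intro τ h2 h3
          have h4 : τ ∈ L (s+1) := (R.gl _ _).2 ⟨h2,
            ((List.prefix_append _ _).trans h1).trans h3⟩
          rw [e2 s] at h4
          rcases List.mem_append.1 h4 with h | h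
          · exact (hne _ (e3 s τ h) h3).elim
          · exact List.mem_singleton.1 h
        intro τ h2 τ' h3 h4 h5
        rw [key τ h2 h4, key τ' h3 h5]
    · intro _
      refine ⟨T 0, false, hb0, fun t ht => ?_⟩
      have h2 : t ≤ T (t+1) := (Nat.le_succ t).trans (R.Tk_ge (t+1))
      exact hA (t+1) (by omega) (Code.evaln_mono h2 ht)
    · intro h; exact (h hd).elim
  · -- switched
    push Not at hA
    have hex : ∃ j, 1 ≤ j ∧ Code.evaln (T j) (Denumerable.ofNat Code (d/2)) (T 0) = some 0 := hA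
    classical
    set j0 := Nat.find hex with hj0
    obtain ⟨hj1, hj2⟩ := Nat.find_spec hex
    rw [← hj0] at hj1 hj2
    have hmin : ∀ j, 1 ≤ j → j < j0 →
        Code.evaln (T j) (Denumerable.ofNat Code (d/2)) (T 0) ≠ some 0 := by
      intro j h2 h3 h4
      exact Nat.find_min hex h3 ⟨h2, h4⟩
    obtain ⟨j1, hj⟩ : ∃ j1, j0 = j1 + 1 := ⟨j0 - 1, by omega⟩
    rw [hj] at hmin hj2
    obtain ⟨fs, Ls, ω, e1, e2, e3, e4⟩ := R.even_un hd hL1 j1 hmin
    have h5 := R.Fs (j1+1)
    have h6 := R.Ls (j1+1)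
    rw [e1, e2, step_un_sw hj2] at h5 h6
    obtain ⟨ω', h7, h8⟩ := h6.single
    have hτω : τ1 <+: ω' := e4.trans ((List.prefix_append _ _).trans h8)
    have hσω : σ <+: ω' := ((List.prefix_append _ _).trans h1).trans hτω
    have hall : ∀ k, (∃ gs, F (j1+1+1+k) = Fr.sw :: gs) ∧ ∀ τ ∈ L (j1+1+1+k), ω' <+: τ := by
      intro k
      induction k with
      | zero =>
        refine ⟨⟨[], h5⟩, fun τ hτ => ?_⟩
        rw [add_zero, h7, List.mem_singleton] at hτ
        rw [hτ]
      | succ k ih =>
        obtain ⟨⟨gs, h9⟩, h10⟩ := ih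
        refine ⟨⟨(step (T (j1+1+1+k)) gs (d+1) (L (j1+1+1+k))).1, ?_⟩, fun τ hτ => ?_⟩
        · rw [← add_assoc, R.Fs, h9, step]
        · rw [← add_assoc] at hτ
          obtain ⟨ρ, h11, h12⟩ := (R.Ls _).mem hτ
          obtain ⟨ρ', h13, b, rfl⟩ := (R.ex _).mem h11
          exact (h10 ρ' h13).trans ((List.prefix_append _ _).trans h12)
    have hgs := fun k => (hall k).1
    choose gs hgs using hgs
    have hsub : Run (d+1) ω' (fun k => T (j1+1+1+k)) gs (fun k => L (j1+1+1+k)) := by
      refine R.sub (κ := fun k => j1+1+1+k) (fun a b h => by simp only; omega)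
        hσω ?_ ?_ ?_ ?_ ?_
      · have := hgs 0
        rw [add_zero, h5] at this
        simp at this
        exact this
      · exact h7
      · intro k
        have h9 := R.Fs (j1+1+1+k)
        rw [hgs k, step, add_assoc (j1+1+1) k 1, hgs (k+1)] at h9
        simp at h9
        exact h9
      · intro k
        have h9 := R.Ls (j1+1+1+k)
        rw [hgs k, step] at h9
        exact h9
      · intro k τ
        constructor
        · intro h
          exact ⟨h, (hall k).2 τ h⟩
        · rintro ⟨h, _⟩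
          exact h
    have hlω : ω'.length = T (j1+1+1) := R.len (by rw [h7]; simp)
    have hTlt : T 0 < T (j1+1+1) := R.mono (by omega)
    refine ⟨ω', _, gs, _, hsub, ⟨hσω, by omega, ?_, ?_, ?_⟩⟩
    · intro Y hY hs hn
      have hmem := R.inL hY hs (j1+1+1)
      rw [h7, List.mem_singleton] at hmem
      refine (hn ?_).elim
      unfold Sb; rw [hlω, hmem]
    · intro _
      refine ⟨T 0, true, fun Y hY => hb1 Y (hY.mono hτω), fun t ht => ?_⟩
      have h9 := Code.evaln_mono (le_max_left t (T (j1+1))) ht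
      have h10 := Code.evaln_mono (le_max_right t (T (j1+1))) hj2
      rw [Option.mem_def] at h9 h10
      rw [h9] at h10
      simp at h10
    · intro h; exact (h hd).elim

end even

end Pool.Agent.TH738.NR
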