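import Pool.Agent.TH738.NR.Cons

set_option autoImplicit false

/-! Members of countable effectively closed classes are not random for continuous measures. -/

namespace Pool.Agent.TH738.NR

open MeasureTheory
open Nat.Partrec (Code)
open Pool.Agent.Helper743 (TR RecT pre pre_length recT_pre pre_getElem?)

/-- the strings of length `s` -/
def strs : ℕ → List (List Bool)
  | 0 => [[]]
  | s+1 => (strs s).flatMap (fun σ => [σ ++ [false], σ ++ [true]])

lemma mem_strs {s : ℕ} {σ : List Bool} : σ ∈ strs s ↔ σ.length = s := by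
  induction s generalizing σ with
  | zero => simp [strs]
  | succ s ih =>
    rw [strs, List.mem_flatMap]
    constructor
    · rintro ⟨τ, h1, h2⟩
      rw [ih] at h1
      simp only [List.mem_cons, List.not_mem_nil, or_false] at h2
      rcases h2 with rfl | rfl <;> simp [h1]
    · intro h
      have hne : σ ≠ [] := by rintro rfl; simp at h
      refine ⟨σ.dropLast, ih.2 (by rw [List.length_dropLast, h]; rfl), ?_⟩
      have h2 := List.dropLast_append_getLast hne
      simp only [List.mem_cons, List.not_mem_nil, or_false]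
      cases hl : σ.getLast hne
      · left; rw [hl] at h2; exact h2.symm
      · right; rw [hl] at h2; exact h2.symm

lemma ex_split (L : List (List Bool)) :
    Ex L (L.flatMap (fun σ => [σ ++ [false], σ ++ [true]])) := by
  induction L with
  | nil => exact Ex.nil
  | cons a l ih => exact Ex.split ih

lemma strs_nodup (s : ℕ) : (strs s).Nodup := by
  induction s with
  | zero => simp [strs]
  | succ s ih => exact (ex_split _).nodup ih

lemma strs_length (s : ℕ) : (strs s).length = 2 ^ s := by
  induction s with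
  | zero => rfl
  | succ s ih =>
    rw [strs, List.length_flatMap]
    simp [ih, pow_succ]

lemma strs_p : Primrec strs := by
  have h : Primrec₂ (fun (_ : Unit) (s : ℕ) => strs s) := by
    have h1 : Primrec₂ (fun (_ : Unit × (ℕ × List (List Bool))) (σ : List Bool) =>
        [σ ++ [false], σ ++ [true]]) :=
      Primrec.list_cons.comp (Primrec.list_append.comp Primrec.snd (Primrec.const [false]))
        (Primrec.list_cons.comp (Primrec.list_append.comp Primrec.snd (Primrec.const [true]))
          (Primrec.const []))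
    have h2 : Primrec₂ (fun (_ : Unit) (z : ℕ × List (List Bool)) =>
        z.2.flatMap (fun σ => [σ ++ [false], σ ++ [true]])) :=
      Primrec.list_flatMap (Primrec.snd.comp Primrec.snd) h1
    refine (Primrec.nat_rec (f := fun _ : Unit => ([[]] : List (List Bool)))
      (g := fun _ z => z.2.flatMap (fun σ => [σ ++ [false], σ ++ [true]]))
      (Primrec.const _) h2).of_eq ?_
    intro _ s
    induction s with
    | zero => rfl
    | succ s ih => simp only [strs]; rw [← ih]
  exact h.comp (Primrec.const ()) Primrec.id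

/-- the cylinder of a string -/
def cyl (σ : List Bool) : Set (ℕ → Bool) := {Z | Sb σ Z}

lemma cyl_meas (σ : List Bool) : MeasurableSet (cyl σ) := by
  have : cyl σ = ⋂ i : Fin σ.length, (fun Z : ℕ → Bool => Z i) ⁻¹' {σ[i]} := by
    ext Z
    simp only [cyl, Set.mem_ofPred_eq, Set.mem_iInter, Set.mem_preimage, Set.mem_singleton_iff]
    constructor
    · intro h i
      exact h.get i.2
    · intro h
      unfold Sb bp
      apply List.ext_getElem
      · simp
      · intro i h1 h2
        simp only [List.getElem_map, List.getElem_range]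
        exact h ⟨i, h2⟩
  rw [this]
  exact MeasurableSet.iInter fun i => (measurable_pi_apply _) (measurableSet_singleton _)

lemma bpmem_meas (k : ℕ) (L : List (List Bool)) (hL : ∀ τ ∈ L, τ.length = k) :
    MeasurableSet {Z : ℕ → Bool | bp Z k ∈ L} := by
  induction L with
  | nil => simp
  | cons a l ih =>
    have h1 : {Z : ℕ → Bool | bp Z k ∈ a :: l} = cyl a ∪ {Z | bp Z k ∈ l} := by
      ext Z
      simp only [List.mem_cons, Set.mem_ofPred_eq, Set.mem_union, cyl, Sb]
      rw [hL a List.mem_cons_self]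
    rw [h1]
    exact (cyl_meas a).union (ih (fun τ hτ => hL τ (List.mem_cons_of_mem _ hτ)))

lemma sum_cyl (μ : Measure (ℕ → Bool)) [IsProbabilityMeasure μ] (k : ℕ)
    (L : List (List Bool)) (hL : ∀ τ ∈ L, τ.length = k) (hn : L.Nodup) :
    μ.real {Z | bp Z k ∈ L} = (L.map (fun τ => μ.real (cyl τ))).sum := by
  induction L with
  | nil => simp
  | cons a l ih =>
    have hl : ∀ τ ∈ l, τ.length = k := fun τ hτ => hL τ (List.mem_cons_of_mem _ hτ)
    have h1 : {Z : ℕ → Bool | bp Z k ∈ a :: l} = cyl a ∪ {Z | bp Z k ∈ l} := by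
      ext Z
      simp only [List.mem_cons, Set.mem_ofPred_eq, Set.mem_union, cyl, Sb]
      rw [hL a List.mem_cons_self]
    have hd : Disjoint (cyl a) {Z | bp Z k ∈ l} := by
      rw [Set.disjoint_left]
      intro Z h2 h3
      simp only [cyl, Sb, Set.mem_ofPred_eq] at h2 h3
      rw [hL a List.mem_cons_self] at h2
      rw [h2] at h3
      exact (List.nodup_cons.1 hn).1 h3
    rw [h1, measureReal_union hd (bpmem_meas k l hl), List.map_cons, List.sum_cons,
      ih hl (List.nodup_cons.1 hn).2]

lemma sum_diff {α : Type*} (L : List α) (f g : α → ℝ) (c : ℝ) (h : ∀ x ∈ L, |f x - g x| ≤ c) :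
    |(L.map f).sum - (L.map g).sum| ≤ L.length * c := by
  induction L with
  | nil => simp
  | cons a l ih =>
    have h1 := ih (fun x hx => h x (List.mem_cons_of_mem _ hx))
    have h2 := h a List.mem_cons_self
    rw [List.map_cons, List.map_cons, List.sum_cons, List.sum_cons, List.length_cons]
    rw [abs_le] at *
    push_cast
    constructor <;> linarith [h1.1, h1.2, h2.1, h2.2]

section core
variable (OK : List Bool → Bool)

/-- the strings of length `k` in the class -/
def Ok (k : ℕ) : List (List Bool) := (strs k).filter OK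

lemma mem_Ok {k : ℕ} {σ : List Bool} : σ ∈ Ok OK k ↔ σ.length = k ∧ OK σ = true := by
  unfold Ok; rw [List.mem_filter, mem_strs]

lemma Ok_p (h : Primrec OK) : Primrec (Ok OK) := by
  have h1 : PrimrecPred (fun σ : List Bool => OK σ = true) :=
    Primrec.eq.comp h (Primrec.const true)
  have h2 := (Primrec.listFilter h1).comp strs_p
  refine h2.of_eq (fun k => ?_)
  unfold Ok
  congr 1
  funext σ
  simp

/-- the approximation of the measure, from a list of values -/
def apx (l : List ℕ) (n k : ℕ) : ℕ :=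
  ((Ok OK k).map (fun τ => l.getD (Nat.pair (Encodable.encode τ) (k+n+2)) 0)).foldr
    (fun a b => a + b) 0

/-- the number of values needed -/
def ndd (n k : ℕ) : ℕ :=
  ((Ok OK k).map (fun τ => Nat.pair (Encodable.encode τ) (k+n+2) + 1)).foldr
    (fun a b => a + b) 0

/-- the test -/
def tst (l : List ℕ) (n : ℕ) (σ : List Bool) : Prop :=
  OK σ = true ∧ apx OK l n σ.length * (4 * 2 ^ n) ≤ 3 * 2 ^ (σ.length + n + 2)

lemma pow2_p : Primrec (fun n : ℕ => 2 ^ n) := Pool.Agent.Helper743.AC.pow_p

lemma apx_p (h : Primrec OK) :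
    Primrec (fun q : List ℕ × (ℕ × ℕ) => apx OK q.1 q.2.1 q.2.2) := by
  have h1 : Primrec₂ (fun (q : List ℕ × (ℕ × ℕ)) (τ : List Bool) =>
      q.1.getD (Nat.pair (Encodable.encode τ) (q.2.2+q.2.1+2)) 0) := by
    refine (Primrec.list_getD 0).comp (Primrec.fst.comp Primrec.fst) ?_
    refine Primrec₂.natPair.comp (Primrec.encode.comp Primrec.snd) ?_
    exact Primrec.succ.comp (Primrec.succ.comp (Primrec.nat_add.comp
      (Primrec.snd.comp (Primrec.snd.comp Primrec.fst))
      (Primrec.fst.comp (Primrec.snd.comp Primrec.fst))))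
  have h2 := Primrec.list_map ((Ok_p OK h).comp (Primrec.snd.comp Primrec.snd)) h1
  have h4 : Primrec₂ (fun (_ : List ℕ × (ℕ × ℕ)) (z : ℕ × ℕ) => z.1 + z.2) :=
    Primrec.nat_add.comp (Primrec.fst.comp Primrec.snd) (Primrec.snd.comp Primrec.snd)
  exact Primrec.list_foldr h2 (Primrec.const 0) h4

lemma ndd_p (h : Primrec OK) : Primrec (fun q : ℕ × ℕ => ndd OK q.1 q.2) := by
  have h1 : Primrec₂ (fun (q : ℕ × ℕ) (τ : List Bool) =>
      Nat.pair (Encodable.encode τ) (q.2+q.1+2) + 1) := by
    refine Primrec.succ.comp (Primrec₂.natPair.comp (Primrec.encode.comp Primrec.snd) ?_)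
    exact Primrec.succ.comp (Primrec.succ.comp (Primrec.nat_add.comp
      (Primrec.snd.comp Primrec.fst) (Primrec.fst.comp Primrec.fst)))
  have h2 := Primrec.list_map ((Ok_p OK h).comp Primrec.snd) h1
  have h4 : Primrec₂ (fun (_ : ℕ × ℕ) (z : ℕ × ℕ) => z.1 + z.2) :=
    Primrec.nat_add.comp (Primrec.fst.comp Primrec.snd) (Primrec.snd.comp Primrec.snd)
  exact Primrec.list_foldr h2 (Primrec.const 0) h4

lemma tst_p (h : Primrec OK) :
    PrimrecPred (fun q : List ℕ × (ℕ × List Bool) => tst OK q.1 q.2.1 q.2.2) := by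
  have hl : Primrec (fun q : List ℕ × (ℕ × List Bool) => q.2.2.length) :=
    Primrec.list_length.comp (Primrec.snd.comp Primrec.snd)
  have hn : Primrec (fun q : List ℕ × (ℕ × List Bool) => q.2.1) :=
    Primrec.fst.comp Primrec.snd
  refine PrimrecPred.and (Primrec.eq.comp (h.comp (Primrec.snd.comp Primrec.snd))
    (Primrec.const true)) ?_
  refine Primrec.nat_le.comp ?_ ?_
  · exact Primrec.nat_mul.comp ((apx_p OK h).comp (Primrec.fst.pair (hn.pair hl)))
      (Primrec.nat_mul.comp (Primrec.const 4) (pow2_p.comp hn))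
  · exact Primrec.nat_mul.comp (Primrec.const 3) (pow2_p.comp (Primrec.succ.comp
      (Primrec.succ.comp (Primrec.nat_add.comp hl hn))))

lemma apx_eq {Gf : ℕ → ℕ} {n k N : ℕ} (hN : ndd OK n k ≤ N) :
    apx OK (pre Gf N) n k =
      ((Ok OK k).map (fun τ => Gf (Nat.pair (Encodable.encode τ) (k+n+2)))).sum := by
  unfold apx
  rw [List.sum_eq_foldr]
  congr 1
  apply List.map_congr_left
  intro τ hτ
  have h1 : Nat.pair (Encodable.encode τ) (k+n+2) + 1 ≤ ndd OK n k := by
    unfold ndd
    exact le_foldr (List.mem_map.2 ⟨τ, hτ, rfl⟩)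
  rw [List.getD_eq_getElem?_getD, pre_getElem?, if_pos (by omega)]
  rfl

/-- members of countable effectively closed classes fail a test -/
theorem ncr_core (hOK : Primrec OK) (hcl : ∀ σ, OK σ = true → ∀ n, OK (σ.take n) = true)
    (hc : {Z : ℕ → Bool | ∀ n, OK (bp Z n) = true}.Countable) {X : ℕ → Bool}
    (hX : ∀ n, OK (bp X n) = true) (μ : Measure (ℕ → Bool)) [IsProbabilityMeasure μ]
    (hμ : ∀ Z, μ {Z} = 0) {O : Set (ℕ →. ℕ)} {Gf : ℕ → ℕ} (hG : RecT O Gf)
    (hap : ∀ (σ : List Bool) (j : ℕ),
      |(Gf (Nat.pair (Encodable.encode σ) j) : ℝ) / 2 ^ j - μ.real (cyl σ)| ≤ 1 / 2 ^ j) :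
    ∃ W : ℕ →. ℕ, Nat.RecursiveIn O W ∧
      (∀ n, μ.real {Z | ∃ k, (W (Nat.pair n (Encodable.encode (bp Z k)))).Dom} ≤ (1/2) ^ n) ∧
      ∀ n, ∃ k, (W (Nat.pair n (Encodable.encode (bp X k)))).Dom := by
  classical
  -- the computable part of the test
  let ds : ℕ → List Bool := fun z => (Encodable.decode (α := List Bool) z).getD []
  have hds : Primrec ds := Primrec.option_getD.comp Primrec.decode (Primrec.const [])
  let N : ℕ → ℕ := fun a => ndd OK a.unpair.1 (ds a.unpair.2).length
  have hNp : Primrec N := (ndd_p OK hOK).comp ((Primrec.fst.comp Primrec.unpair).pair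
    (Primrec.list_length.comp (hds.comp (Primrec.snd.comp Primrec.unpair))))
  let q : ℕ → ℕ := fun a => if tst OK (pre Gf (N a)) a.unpair.1 (ds a.unpair.2) then 0 else 1
  have hq : RecT O q := by
    let F : ℕ → ℕ := fun z => if tst OK ((Encodable.decode (α := List ℕ) z.unpair.2).getD [])
      z.unpair.1.unpair.1 (ds z.unpair.1.unpair.2) then 0 else 1
    have hF : Primrec F := by
      have u1 : Primrec (fun z : ℕ => z.unpair.1) := Primrec.fst.comp Primrec.unpair
      have u2 : Primrec (fun z : ℕ => z.unpair.2) := Primrec.snd.comp Primrec.unpair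
      refine Primrec.ite ?_ (Primrec.const 0) (Primrec.const 1)
      exact (tst_p OK hOK).comp ((Primrec.option_getD.comp (Primrec.decode.comp u2)
        (Primrec.const [])).pair ((u1.comp u1).pair (hds.comp (u2.comp u1))))
    have h1 : RecT O (fun a => Nat.pair a (Encodable.encode (pre Gf (N a)))) :=
      RecT.pair (Pool.Agent.Helper743.Computable.recT Computable.id)
        ((recT_pre hG).comp (Pool.Agent.Helper743.Computable.recT hNp.to_comp))
    have h2 := (Pool.Agent.Helper743.Computable.recT (O := O) hF.to_comp).comp h1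
    refine Nat.RecursiveIn.of_eq h2 (fun a => ?_)
    simp only [F, q, Nat.unpair_pair, Encodable.encodek, Option.getD_some]
  let W : ℕ →. ℕ := fun a => Nat.rfind (fun s => (fun m => decide (m = 0)) <$>
    ((fun b => Part.some (q b.unpair.1) : ℕ →. ℕ) (Nat.pair a s)))
  have hW : Nat.RecursiveIn O W := by
    have h1 : Nat.RecursiveIn O (fun b => Part.some (q b.unpair.1)) :=
      hq.comp (Pool.Agent.Helper743.Computable.recT (Computable.fst.comp Computable.unpair))
    exact Nat.RecursiveIn.rfind h1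
  have hWd : ∀ a, (W a).Dom ↔ q a = 0 := by
    intro a
    have h1 : (W a).Dom ↔ ∃ n, true ∈ ((fun m => decide (m = 0)) <$>
        ((fun b => Part.some (q b.unpair.1) : ℕ →. ℕ) (Nat.pair a n))) ∧
        ∀ {m}, m < n → ((fun m => decide (m = 0)) <$>
        ((fun b => Part.some (q b.unpair.1) : ℕ →. ℕ) (Nat.pair a m))).Dom :=
      Nat.rfind_dom (p := fun s => (fun m => decide (m = 0)) <$>
        ((fun b => Part.some (q b.unpair.1) : ℕ →. ℕ) (Nat.pair a s)))
    rw [h1]
    simp only [Nat.unpair_pair]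
    constructor
    · rintro ⟨n, h2, _⟩
      simpa using h2
    · intro h
      exact ⟨0, by simp [h], fun {m} hm => (by omega : False).elim⟩
  -- meaning of the test
  let T : ℕ → ℕ → Prop := fun n k =>
    ((Ok OK k).map (fun τ => Gf (Nat.pair (Encodable.encode τ) (k+n+2)))).sum * (4 * 2 ^ n) ≤
      3 * 2 ^ (k + n + 2)
  have hqT : ∀ n (Z : ℕ → Bool) k, (W (Nat.pair n (Encodable.encode (bp Z k)))).Dom ↔
      OK (bp Z k) = true ∧ T n k := by
    intro n Z k
    rw [hWd]
    have h1 : q (Nat.pair n (Encodable.encode (bp Z k))) =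
        if tst OK (pre Gf (ndd OK n k)) n (bp Z k) then 0 else 1 := by
      simp only [q, N, ds, Nat.unpair_pair, Encodable.encodek, Option.getD_some, bp_length]
    rw [h1]
    have h2 : tst OK (pre Gf (ndd OK n k)) n (bp Z k) ↔ OK (bp Z k) = true ∧ T n k := by
      unfold tst
      rw [bp_length, apx_eq OK (le_refl _)]
    rw [← h2]
    by_cases h3 : tst OK (pre Gf (ndd OK n k)) n (bp Z k)
    · simp [h3]
    · simp [h3]
  -- the measures
  let C : ℕ → Set (ℕ → Bool) := fun k => {Z | bp Z k ∈ Ok OK k}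
  have hCm : ∀ k, MeasurableSet (C k) := fun k =>
    bpmem_meas k _ (fun τ hτ => ((mem_Ok OK).1 hτ).1)
  have hCi : ∀ {k Z}, Z ∈ C k ↔ OK (bp Z k) = true := by
    intro k Z
    simp only [C, Set.mem_ofPred_eq]
    rw [mem_Ok]
    simp
  have hCa : Antitone C := by
    intro a b hab Z hZ
    rw [hCi] at hZ ⊢
    have := hcl _ hZ a
    rwa [bp_take Z hab] at this
  have hsum : ∀ n k, |((((Ok OK k).map (fun τ =>
      Gf (Nat.pair (Encodable.encode τ) (k+n+2)))).sum : ℕ) : ℝ) / 2 ^ (k+n+2) -
      μ.real (C k)| ≤ 1 / 2 ^ (n+2) := by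
    intro n k
    have h1 : μ.real (C k) = ((Ok OK k).map (fun τ => μ.real (cyl τ))).sum :=
      sum_cyl μ k _ (fun τ hτ => ((mem_Ok OK).1 hτ).1) ((strs_nodup k).filter _)
    have h2 : ((((Ok OK k).map (fun τ =>
        Gf (Nat.pair (Encodable.encode τ) (k+n+2)))).sum : ℕ) : ℝ) / 2 ^ (k+n+2) =
        ((Ok OK k).map (fun τ =>
          (Gf (Nat.pair (Encodable.encode τ) (k+n+2)) : ℝ) / 2 ^ (k+n+2))).sum := by
      induction (Ok OK k) with
      | nil => simp
      | cons a l ih =>
        simp only [List.map_cons, List.sum_cons, Nat.cast_add, add_div]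
        rw [ih]
    rw [h1, h2]
    refine (sum_diff _ _ _ (1 / 2 ^ (k+n+2)) (fun τ _ => hap τ (k+n+2))).trans ?_
    have h3 : (Ok OK k).length ≤ 2 ^ k := by
      rw [← strs_length k]; exact List.length_filter_le _ _
    have h4 : ((Ok OK k).length : ℝ) ≤ 2 ^ k := by exact_mod_cast h3
    have h5 : (2 : ℝ) ^ (k+n+2) = 2 ^ k * 2 ^ (n+2) := by rw [← pow_add]; ring_nf
    rw [h5, one_div, mul_inv, ← mul_assoc, one_div]
    have h6 : ((Ok OK k).length : ℝ) * (2 ^ k)⁻¹ ≤ 1 := by
      rw [← div_eq_mul_inv, div_le_one (by positivity)]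
      exact h4
    have h7 : (0 : ℝ) ≤ (2 ^ (n+2))⁻¹ := by positivity
    nlinarith
  have hT : ∀ n k, T n k ↔ ((((Ok OK k).map (fun τ =>
      Gf (Nat.pair (Encodable.encode τ) (k+n+2)))).sum : ℕ) : ℝ) / 2 ^ (k+n+2) ≤
      3 / (4 * 2 ^ n) := by
    intro n k
    simp only [T]
    rw [div_le_div_iff₀ (by positivity) (by positivity)]
    exact_mod_cast Iff.rfl
  refine ⟨W, hW, fun n => ?_, fun n => ?_⟩
  · -- the measure of the test
    by_cases hex : ∃ k, T n k
    · have hk0 := Nat.find_spec hex
      set k0 := Nat.find hex with hk0d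
      have hsub : {Z : ℕ → Bool | ∃ k, (W (Nat.pair n (Encodable.encode (bp Z k)))).Dom} ⊆
          C k0 := by
        rintro Z ⟨k, hk⟩
        rw [hqT] at hk
        have h1 : k0 ≤ k := Nat.find_min' hex hk.2
        exact hCa h1 (hCi.2 hk.1)
      refine (measureReal_mono hsub).trans ?_
      have h1 := hsum n k0
      rw [hT] at hk0
      rw [abs_le] at h1
      have h2 : (3 : ℝ) / (4 * 2 ^ n) + 1 / 2 ^ (n+2) = (1/2) ^ n := by
        rw [pow_add, one_div_pow]
        field_simp
        norm_num
      linarith [h1.1]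
    · have hempty : {Z : ℕ → Bool | ∃ k, (W (Nat.pair n (Encodable.encode (bp Z k)))).Dom} =
          ∅ := by
        ext Z
        simp only [Set.mem_ofPred_eq, Set.mem_empty_iff_false, iff_false, not_exists]
        intro k hk
        rw [hqT] at hk
        exact hex ⟨k, hk.2⟩
      rw [hempty]
      simp
  · -- `X` fails the test
    have hint : (⋂ k, C k) = {Z : ℕ → Bool | ∀ n, OK (bp Z n) = true} := by
      ext Z
      simp only [Set.mem_iInter, Set.mem_ofPred_eq]
      exact forall_congr' (fun k => hCi)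
    have hzero : μ (⋂ k, C k) = 0 := by
      rw [hint]
      have : NullSingletonClass μ := ⟨hμ⟩
      exact hc.measure_zero μ
    have htend := tendsto_measure_iInter_atTop (μ := μ) (s := C)
      (fun k => (hCm k).nullMeasurableSet) hCa ⟨0, measure_ne_top μ _⟩
    rw [hzero] at htend
    have htend' : Filter.Tendsto (fun k => μ.real (C k)) Filter.atTop (nhds 0) := by
      have := (ENNReal.tendsto_toReal (by simp : (0 : ENNReal) ≠ ⊤)).comp htend
      exact this
    have hev := htend'.eventually (ge_mem_nhds (show (0 : ℝ) < 1 / (2 * 2 ^ n) by positivity))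
    obtain ⟨k, hk⟩ := hev.exists
    refine ⟨k, ?_⟩
    rw [hqT]
    refine ⟨hX k, ?_⟩
    rw [hT]
    have h1 := hsum n k
    rw [abs_le] at h1
    have h2 : (1 : ℝ) / (2 * 2 ^ n) + 1 / 2 ^ (n+2) = 3 / (4 * 2 ^ n) := by
      rw [pow_add]
      field_simp
      norm_num
    linarith [h1.2]

end core

end Pool.Agent.TH738.NR
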