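import Pool.Agent.TH738.NR.Step

set_option autoImplicit false

/-! Runs of the strategies of one level. -/

namespace Pool.Agent.TH738.NR

open Nat.Partrec (Code)
open Pool.Agent.Helper743.PR (evT evT_mono)

/-- initial segments of a real -/
def bp (Y : ℕ → Bool) (n : ℕ) : List Bool := (List.range n).map Y

@[simp] lemma bp_length (Y : ℕ → Bool) (n : ℕ) : (bp Y n).length = n := by simp [bp]

lemma bp_take (Y : ℕ → Bool) {m n : ℕ} (h : m ≤ n) : (bp Y n).take m = bp Y m := by
  unfold bp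
  rw [← List.map_take, List.take_range, min_eq_left h]

lemma bp_pre (Y : ℕ → Bool) {m n : ℕ} (h : m ≤ n) : bp Y m <+: bp Y n := by
  rw [← bp_take Y h]; exact List.take_prefix _ _

/-- `σ` is an initial segment of `Y` -/
def Sb (σ : List Bool) (Y : ℕ → Bool) : Prop := bp Y σ.length = σ

lemma Sb_bp (Y : ℕ → Bool) (n : ℕ) : Sb (bp Y n) Y := by unfold Sb; rw [bp_length]

lemma Sb.mono {σ τ : List Bool} {Y : ℕ → Bool} (h : σ <+: τ) (ht : Sb τ Y) : Sb σ Y := by
  unfold Sb at *
  have h1 := List.prefix_iff_eq_take.1 h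
  rw [← ht, bp_take Y h.length_le] at h1
  exact h1.symm

lemma Sb_iff {σ : List Bool} {Y : ℕ → Bool} {n : ℕ} (h : σ.length ≤ n) :
    Sb σ Y ↔ σ <+: bp Y n := by
  constructor
  · intro h1
    rw [← h1]
    exact bp_pre Y h
  · intro h1
    exact (Sb_bp Y n).mono h1

lemma Sb.get {σ : List Bool} {Y : ℕ → Bool} (h : Sb σ Y) {i : ℕ} (hi : i < σ.length) :
    Y i = σ[i] := by
  unfold Sb at h
  have h1 : (bp Y σ.length)[i]'(by simpa using hi) = σ[i] := by congr 1
  rw [← h1]
  simp [bp]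

/-! the global lists -/

lemma G_zero : G 0 = [[]] := rfl

lemma G_all (t : ℕ) : Val (St t).1 (G t).length ∧ (G t).Nodup ∧ ∀ τ ∈ G t, τ.length = t := by
  induction t with
  | zero => exact ⟨Val.nil, by simp [G_zero], by simp [G_zero]⟩
  | succ t ih =>
    obtain ⟨h1, h2, h3⟩ := ih
    obtain ⟨h4, h5⟩ := step_all t (d := 0) h1
    refine ⟨h5, h4.nodup h2, fun τ hτ => ?_⟩
    obtain ⟨ρ, h6, b, rfl⟩ := h4.mem hτ
    simp [h3 ρ h6]

lemma G_val (t : ℕ) : Val (St t).1 (G t).length := (G_all t).1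
lemma G_nodup (t : ℕ) : (G t).Nodup := (G_all t).2.1
lemma G_len {t : ℕ} {τ : List Bool} (h : τ ∈ G t) : τ.length = t := (G_all t).2.2 τ h

lemma G_ex (t : ℕ) : Ex (G t) (G (t+1)) := (step_all t (G_val t)).1

lemma G_take {s t : ℕ} (h : s ≤ t) {τ : List Bool} (hτ : τ ∈ G t) : τ.take s ∈ G s := by
  induction t generalizing τ with
  | zero =>
    have : s = 0 := by omega
    subst this
    simp [G_zero]
  | succ t ih =>
    rcases Nat.lt_or_ge t s with h1 | h1
    · have : s = t + 1 := by omega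
      subst this
      rw [List.take_of_length_le (by rw [G_len hτ])]
      exact hτ
    · obtain ⟨ρ, h6, b, rfl⟩ := (G_ex t).mem hτ
      rw [List.take_append_of_le_length (by rw [G_len h6]; exact h1)]
      exact ih h1 h6

/-- the class -/
def InP (Y : ℕ → Bool) : Prop := ∀ t, bp Y t ∈ G t

lemma InP_of {Y : ℕ → Bool} (h : ∀ s, ∃ t, s ≤ t ∧ bp Y t ∈ G t) : InP Y := by
  intro s
  obtain ⟨t, h1, h2⟩ := h s
  have := G_take h1 h2
  rwa [bp_take Y h1] at this

/-- members of the class that are the only path through one of their initial segments, with the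
class approximated by a single string infinitely often -/
def Thin (Y : ℕ → Bool) : Prop :=
  ∃ ρ, Sb ρ Y ∧ ∀ s, ∃ t, s ≤ t ∧ ∀ τ ∈ G t, ∀ τ' ∈ G t, ρ <+: τ → ρ <+: τ' → τ = τ'

/-! convergence -/

lemma nb_take (σ : List Bool) (j : ℕ) : nb (σ.take j) = (nb σ).take j := by
  unfold nb; rw [List.map_take]

lemma cv_mono {t t' e : ℕ} {σ σ' : List Bool} {n : ℕ} (ht : t ≤ t') (hs : σ <+: σ')
    (h : cv t e σ n) : cv t' e σ' n := by
  obtain ⟨j, hj, h1⟩ := h
  rw [List.mem_range] at hj
  refine ⟨j, ?_, ?_⟩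
  · rw [List.mem_range]
    have := hs.length_le
    omega
  · have h2 : (nb σ').take j = (nb σ).take j := by
      rw [← nb_take, ← nb_take]
      congr 1
      have h3 := List.prefix_iff_eq_take.1 hs
      conv_rhs => rw [h3]
      rw [List.take_take, min_eq_left (by omega)]
    rw [h2, evT_mono ht h1]
    exact h1

/-! pointwise extension of lists of strings -/

/-- pointwise extension -/
def PE (L L' : List (List Bool)) : Prop := List.Forall₂ (fun σ τ => σ <+: τ) L L'

lemma PE.refl (L : List (List Bool)) : PE L L := by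
  unfold PE
  induction L with
  | nil => exact List.Forall₂.nil
  | cons a l ih => exact List.Forall₂.cons (List.prefix_refl a) ih

lemma PE.trans {L1 L2 L3 : List (List Bool)} (h1 : PE L1 L2) (h2 : PE L2 L3) : PE L1 L3 := by
  unfold PE at *
  induction h1 generalizing L3 with
  | nil => cases h2; exact List.Forall₂.nil
  | cons hab _ ih =>
    cases h2 with
    | cons hbc h2 => exact List.Forall₂.cons (hab.trans hbc) (ih h2)

lemma PE.length {L L' : List (List Bool)} (h : PE L L') : L.length = L'.length :=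
  List.Forall₂.length_eq h

lemma PE.map0 (L : List (List Bool)) : PE L (L.map (· ++ [false])) := by
  unfold PE
  induction L with
  | nil => exact List.Forall₂.nil
  | cons a l ih => exact List.Forall₂.cons (List.prefix_append _ _) ih

lemma PE.append {A A' B B' : List (List Bool)} (h1 : PE A A') (h2 : PE B B') :
    PE (A ++ B) (A' ++ B') := by
  unfold PE at *
  induction h1 with
  | nil => exact h2
  | cons hab _ ih => exact List.Forall₂.cons hab ih

lemma PE.split {A B C : List (List Bool)} (h : PE (A ++ B) C) :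
    ∃ A' B', C = A' ++ B' ∧ PE A A' ∧ PE B B' := by
  induction A generalizing C with
  | nil => exact ⟨[], C, rfl, List.Forall₂.nil, h⟩
  | cons a A ih =>
    unfold PE at h
    rw [List.cons_append] at h
    cases h with
    | cons hab h =>
      obtain ⟨A', B', rfl, h1, h2⟩ := ih h
      exact ⟨_ :: A', B', rfl, List.Forall₂.cons hab h1, h2⟩

lemma PE.cons_left {a : List Bool} {A C : List (List Bool)} (h : PE (a :: A) C) :
    ∃ a' A', C = a' :: A' ∧ a <+: a' ∧ PE A A' := by
  unfold PE at h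
  cases h with
  | cons hab h => exact ⟨_, _, rfl, hab, h⟩

lemma PE.nil_left {C : List (List Bool)} (h : PE [] C) : C = [] := by
  unfold PE at h
  cases h; rfl

lemma PE.single {a : List Bool} {C : List (List Bool)} (h : PE [a] C) :
    ∃ a', C = [a'] ∧ a <+: a' := by
  obtain ⟨a', A', rfl, h1, h2⟩ := h.cons_left
  rw [h2.nil_left]
  exact ⟨a', rfl, h1⟩

lemma PE.mem {L L' : List (List Bool)} (h : PE L L') {τ : List Bool} (hτ : τ ∈ L') :
    ∃ ρ ∈ L, ρ <+: τ := by
  unfold PE at h
  induction h with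
  | nil => simp at hτ
  | cons hab _ ih =>
    rcases List.mem_cons.1 hτ with h | h
    · subst h; exact ⟨_, List.mem_cons_self, hab⟩
    · obtain ⟨ρ, h1, h2⟩ := ih h
      exact ⟨ρ, List.mem_cons_of_mem _ h1, h2⟩

lemma eq_of_pre {σ τ ρ : List Bool} (h1 : σ <+: ρ) (h2 : τ <+: ρ) (h : σ.length = τ.length) :
    σ = τ := by
  rw [List.prefix_iff_eq_take.1 h1, List.prefix_iff_eq_take.1 h2, h]

lemma PE.nodup {L L' : List (List Bool)} (h : PE L L') {n : ℕ} (hl : ∀ τ ∈ L, τ.length = n)
    (hn : L.Nodup) : L'.Nodup := by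
  unfold PE at h
  induction h with
  | nil => exact List.nodup_nil
  | @cons a b A B hab hAB ih =>
    refine List.nodup_cons.2 ⟨fun hm => ?_, ih (fun τ hτ => hl τ (List.mem_cons_of_mem _ hτ))
      (List.nodup_cons.1 hn).2⟩
    obtain ⟨ρ, h1, h2⟩ := PE.mem hAB hm
    have : a = ρ := eq_of_pre hab h2 (by
      rw [hl a List.mem_cons_self, hl ρ (List.mem_cons_of_mem _ h1)])
    subst this
    exact (List.nodup_cons.1 hn).1 h1

/-- if `L` has no repetition and its strings have the same length, then the strings of `L'` that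
extend a given string of `L` agree -/
lemma PE.unique {L L' : List (List Bool)} (h : PE L L') {n : ℕ} (hl : ∀ τ ∈ L, τ.length = n)
    (hn : L.Nodup) {ρ τ τ' : List Bool} (hρ : ρ ∈ L) (hτ : τ ∈ L') (hτ' : τ' ∈ L')
    (h1 : ρ <+: τ) (h2 : ρ <+: τ') : τ = τ' := by
  unfold PE at h
  induction h with
  | nil => simp at hτ
  | @cons a b A B hab hAB ih =>
    have hlA : ∀ τ ∈ A, τ.length = n := fun τ hτ => hl τ (List.mem_cons_of_mem _ hτ)
    have hla := hl a List.mem_cons_self
    have hlr := hl ρ hρ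
    have key : ∀ {x y : List Bool}, x ∈ B → a <+: x → False := by
      intro x y hx hax
      obtain ⟨ρ', h3, h4⟩ := PE.mem hAB hx
      have : a = ρ' := eq_of_pre hax h4 (by rw [hla, hlA ρ' h3])
      subst this
      exact (List.nodup_cons.1 hn).1 h3
    by_cases hra : ρ = a
    · subst hra
      rcases List.mem_cons.1 hτ with h | h
      · rcases List.mem_cons.1 hτ' with h' | h'
        · rw [h, h']
        · exact (key (y := []) h' h2).elim
      · exact (key (y := []) h h1).elim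
    · have hρA : ρ ∈ A := by
        rcases List.mem_cons.1 hρ with h | h
        · exact (hra h).elim
        · exact h
      have notb : ∀ {x : List Bool}, x ∈ b :: B → ρ <+: x → x ∈ B := by
        intro x hx hrx
        rcases List.mem_cons.1 hx with h | h
        · subst h
          exact (hra (eq_of_pre hrx hab (by rw [hlr, hla]))).elim
        · exact h
      exact ih hlA (List.nodup_cons.1 hn).2 hρA (notb hτ h1) (notb hτ' h2)

/-- a run of the strategies from level `d` on, above `σ`, at the stages `T k` -/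
structure Run (d : ℕ) (σ : List Bool) (T : ℕ → ℕ) (F : ℕ → List Fr)
    (L : ℕ → List (List Bool)) : Prop where
  mono : StrictMono T
  F0 : F 0 = []
  L0 : L 0 = [σ]
  Fs : ∀ k, F (k+1) = (step (T k) (F k) d (L k)).1
  Ls : ∀ k, PE (step (T k) (F k) d (L k)).2 (L (k+1))
  gl : ∀ k τ, τ ∈ L k ↔ τ ∈ G (T k) ∧ σ <+: τ

section run
variable {d : ℕ} {σ : List Bool} {T : ℕ → ℕ} {F : ℕ → List Fr} {L : ℕ → List (List Bool)}

lemma Run.len (R : Run d σ T F L) {k : ℕ} {τ : List Bool} (h : τ ∈ L k) : τ.length = T k :=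
  G_len ((R.gl k τ).1 h).1

lemma Run.len0 (R : Run d σ T F L) : σ.length = T 0 := R.len (by rw [R.L0]; simp)

lemma Run.val (R : Run d σ T F L) (k : ℕ) : Val (F k) (L k).length := by
  induction k with
  | zero => rw [R.F0, R.L0]; exact Val.nil
  | succ k ih =>
    have h := (step_all (T k) (d := d) ih).2
    rw [← R.Fs k, (R.Ls k).length] at h
    exact h

lemma Run.ex (R : Run d σ T F L) (k : ℕ) : Ex (L k) (step (T k) (F k) d (L k)).2 :=
  (step_all (T k) (d := d) (R.val k)).1

lemma Run.steplen (R : Run d σ T F L) (k : ℕ) {τ : List Bool}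
    (h : τ ∈ (step (T k) (F k) d (L k)).2) : τ.length = T k + 1 := by
  obtain ⟨ρ, h1, b, rfl⟩ := (R.ex k).mem h
  simp [R.len h1]

lemma Run.nodup (R : Run d σ T F L) (k : ℕ) : (L k).Nodup := by
  induction k with
  | zero => rw [R.L0]; simp
  | succ k ih =>
    exact (R.Ls k).nodup (fun τ hτ => R.steplen k hτ) ((R.ex k).nodup ih)

lemma Run.Tk_ge (R : Run d σ T F L) (k : ℕ) : k ≤ T k := R.mono.le_apply

lemma Run.inL (R : Run d σ T F L) {Y : ℕ → Bool} (hY : InP Y) (hs : Sb σ Y) (k : ℕ) :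
    bp Y (T k) ∈ L k := by
  refine (R.gl k _).2 ⟨hY _, ?_⟩
  refine (Sb_iff ?_).1 hs
  rw [R.len0]
  exact R.mono.monotone (Nat.zero_le k)

/-- restriction of a run to a cone, with new strings from `k0` on -/
lemma Run.sub (R : Run d σ T F L) {κ : ℕ → ℕ} (hκ : StrictMono κ) {σ' : List Bool}
    {F' : ℕ → List Fr} {L' : ℕ → List (List Bool)} (hσ : σ <+: σ')
    (F0 : F' 0 = []) (L0 : L' 0 = [σ'])
    (Fs : ∀ k, F' (k+1) = (step (T (κ k)) (F' k) (d+1) (L' k)).1)
    (Ls : ∀ k, PE (step (T (κ k)) (F' k) (d+1) (L' k)).2 (L' (k+1)))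
    (gl : ∀ k τ, τ ∈ L' k ↔ τ ∈ L (κ k) ∧ σ' <+: τ) :
    Run (d+1) σ' (fun k => T (κ k)) F' L' where
  mono := R.mono.comp hκ
  F0 := F0
  L0 := L0
  Fs := Fs
  Ls := Ls
  gl := by
    intro k τ
    rw [gl, R.gl]
    constructor
    · rintro ⟨⟨h1, _⟩, h2⟩; exact ⟨h1, h2⟩
    · rintro ⟨h1, h2⟩; exact ⟨⟨h1, hσ.trans h2⟩, h2⟩

end run

/-- what is achieved by the strategy of level `d`, above `σ'` -/
structure Nxt (d : ℕ) (σ σ' : List Bool) : Prop where
  pre : σ <+: σ'
  lt : σ.length < σ'.length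
  thin : ∀ Y, InP Y → Sb σ Y → ¬ Sb σ' Y → Thin Y
  ev : d % 2 = 0 → ∃ (p : ℕ) (b : Bool), (∀ Y, Sb σ' Y → Y p = b) ∧
    ∀ t, Code.evaln t (Denumerable.ofNat Code (d/2)) p ≠ some b.toNat
  od : d % 2 ≠ 0 → (∃ n, ∀ Y, InP Y → Sb σ' Y → ∀ t, ¬ cv t (d/2) (bp Y t) n) ∨
    ∀ n, ∃ t, σ'.length ≤ t ∧ ∀ τ ∈ G t, σ' <+: τ → cv t (d/2) τ n

/-- the first run -/
lemma Run.top : Run 0 [] (fun k => k) (fun k => (St k).1) G where
  mono := strictMono_id
  F0 := rfl
  L0 := rfl
  Fs := fun _ => rfl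
  Ls := fun _ => PE.refl _
  gl := fun k τ => by simp

end Pool.Agent.TH738.NR
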