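import Pool.Agent.TH738.NR.Defs

set_option autoImplicit false

/-! Structure of one step of the construction. -/

namespace Pool.Agent.TH738.NR

open Nat.Partrec (Code)

/-- the list of strings `L'` arises from `L` by omitting some strings, and extending each of the
others by one bit in one or two ways -/
inductive Ex : List (List Bool) → List (List Bool) → Prop
  | nil : Ex [] []
  | drop {τ : List Bool} {L L' : List (List Bool)} : Ex L L' → Ex (τ :: L) L'
  | keep {τ : List Bool} {L L' : List (List Bool)} : Ex L L' →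
      Ex (τ :: L) ((τ ++ [false]) :: L')
  | split {τ : List Bool} {L L' : List (List Bool)} : Ex L L' →
      Ex (τ :: L) ((τ ++ [false]) :: (τ ++ [true]) :: L')

lemma Ex.append {L1 L1' L2 L2' : List (List Bool)} (h1 : Ex L1 L1') (h2 : Ex L2 L2') :
    Ex (L1 ++ L2) (L1' ++ L2') := by
  induction h1 with
  | nil => exact h2
  | drop _ ih => exact Ex.drop ih
  | keep _ ih => exact Ex.keep ih
  | split _ ih => exact Ex.split ih

lemma Ex.none (L : List (List Bool)) : Ex L [] := by
  induction L with
  | nil => exact Ex.nil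
  | cons a l ih => exact Ex.drop ih

lemma Ex.map0 (L : List (List Bool)) : Ex L (L.map (· ++ [false])) := by
  induction L with
  | nil => exact Ex.nil
  | cons a l ih => exact Ex.keep ih

lemma Ex.sub {L M : List (List Bool)} (h : M.Sublist L) : Ex L (M.map (· ++ [false])) := by
  induction h with
  | slnil => exact Ex.nil
  | cons _ _ ih => exact Ex.drop ih
  | cons_cons _ _ ih => exact Ex.keep ih

lemma Ex.mem {L L' : List (List Bool)} (h : Ex L L') {τ' : List Bool} (hm : τ' ∈ L') :
    ∃ τ ∈ L, ∃ b, τ' = τ ++ [b] := by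
  induction h with
  | nil => simp at hm
  | drop _ ih =>
    obtain ⟨τ, h1, h2⟩ := ih hm
    exact ⟨τ, List.mem_cons_of_mem _ h1, h2⟩
  | @keep σ L L' _ ih =>
    rcases List.mem_cons.1 hm with h | h
    · exact ⟨σ, List.mem_cons_self, false, h⟩
    · obtain ⟨τ, h1, h2⟩ := ih h
      exact ⟨τ, List.mem_cons_of_mem _ h1, h2⟩
  | @split σ L L' _ ih =>
    rcases List.mem_cons.1 hm with h | h
    · exact ⟨σ, List.mem_cons_self, false, h⟩
    rcases List.mem_cons.1 h with h | h
    · exact ⟨σ, List.mem_cons_self, true, h⟩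
    · obtain ⟨τ, h1, h2⟩ := ih h
      exact ⟨τ, List.mem_cons_of_mem _ h1, h2⟩

lemma Ex.nodup {L L' : List (List Bool)} (h : Ex L L') (hn : L.Nodup) : L'.Nodup := by
  induction h with
  | nil => exact hn
  | drop _ ih => exact ih (List.nodup_cons.1 hn).2
  | @keep σ L L' hx ih =>
    refine List.nodup_cons.2 ⟨fun hm => ?_, ih (List.nodup_cons.1 hn).2⟩
    obtain ⟨τ, h1, b, h2⟩ := hx.mem hm
    have h3 := (List.append_inj' h2 (by simp)).1
    subst h3
    exact (List.nodup_cons.1 hn).1 h1
  | @split σ L L' hx ih =>
    refine List.nodup_cons.2 ⟨fun hm => ?_, List.nodup_cons.2 ⟨fun hm => ?_,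
      ih (List.nodup_cons.1 hn).2⟩⟩
    · rcases List.mem_cons.1 hm with h | hm
      · have := (List.append_inj' h (by simp)).2
        simp at this
      · obtain ⟨τ, h1, b, h2⟩ := hx.mem hm
        have h3 := (List.append_inj' h2 (by simp)).1
        subst h3
        exact (List.nodup_cons.1 hn).1 h1
    · obtain ⟨τ, h1, b, h2⟩ := hx.mem hm
      have h3 := (List.append_inj' h2 (by simp)).1
      subst h3
      exact (List.nodup_cons.1 hn).1 h1

/-- the valid states for lists of a given length -/
inductive Val : List Fr → ℕ → Prop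
  | nil : Val [] 1
  | un {p : ℕ} {fs : List Fr} {m : ℕ} : Val fs m → Val (Fr.un p :: fs) (m + 1)
  | sw {fs : List Fr} {m : ℕ} : Val fs m → Val (Fr.sw :: fs) m
  | inf {n : ℕ} {fs : List Fr} {m : ℕ} : Val fs m → Val (Fr.inf n :: fs) m
  | fin {n b c : ℕ} {fs gs : List Fr} {m : ℕ} : Val fs m → Val gs (b + (1 + c)) →
      Val (Fr.fin n b c (Encodable.encode gs) :: fs) (b + (m + c))

lemma Val.pos {fs : List Fr} {m : ℕ} (h : Val fs m) : 1 ≤ m := by
  induction h with
  | nil => exact le_refl _
  | un _ _ => omega
  | sw _ ih => exact ih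
  | inf _ ih => exact ih
  | fin _ _ ih _ => omega

lemma step_nil_even {t d : ℕ} (hd : d % 2 = 0) (σ : List Bool) :
    step t [] d [σ] = ([Fr.un t], [σ ++ [false], σ ++ [true]]) := by
  rw [step, if_pos hd]; rfl

lemma step_nil_odd {t d : ℕ} (hd : d % 2 ≠ 0) (σ : List Bool) :
    step t [] d [σ] = ([Fr.inf 0], [σ ++ [false]]) := by
  rw [step, if_neg hd]; rfl

lemma step_un_sw {t d p : ℕ} {fs : List Fr} {Ls : List (List Bool)} {ω : List Bool}
    (h : Code.evaln t (Denumerable.ofNat Code (d/2)) p = some 0) :
    step t (Fr.un p :: fs) d (Ls ++ [ω]) = ([Fr.sw], [ω ++ [false]]) := by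
  rw [step, if_pos h]
  simp

lemma step_un_un {t d p : ℕ} {fs : List Fr} {Ls : List (List Bool)} {ω : List Bool}
    (h : Code.evaln t (Denumerable.ofNat Code (d/2)) p ≠ some 0) :
    step t (Fr.un p :: fs) d (Ls ++ [ω]) =
      (Fr.un p :: (step t fs (d+1) Ls).1, (step t fs (d+1) Ls).2 ++ [ω ++ [false]]) := by
  rw [step, if_neg h]
  have h1 : (Ls ++ [ω]).take ((Ls ++ [ω]).length - 1) = Ls := by simp
  rw [h1]
  simp

lemma step_inf (t d n : ℕ) (fs : List Fr) (L : List (List Bool)) :
    ((∀ σ ∈ L, cv t (d/2) σ n) ∧ step t (Fr.inf n :: fs) d L =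
      (Fr.inf (n+1) :: (step t fs (d+1) L).1, (step t fs (d+1) L).2)) ∨
    ∃ A τ B, L = A ++ τ :: B ∧ (∀ σ ∈ A, cv t (d/2) σ n) ∧ ¬ cv t (d/2) τ n ∧
      step t (Fr.inf n :: fs) d L =
        ([Fr.fin n A.length B.length (Encodable.encode fs)], L.map (· ++ [false])) := by
  by_cases h : L.findIdx (fun σ => !decide (cv t (d/2) σ n)) < L.length
  · right
    set i := L.findIdx (fun σ => !decide (cv t (d/2) σ n)) with hi
    refine ⟨L.take i, L[i], L.drop (i+1), ?_, ?_, ?_, ?_⟩
    · rw [List.getElem_cons_drop, List.take_append_drop]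
    · intro σ hσ
      obtain ⟨j, hj, rfl⟩ := List.mem_iff_getElem.1 hσ
      rw [List.length_take] at hj
      have h1 : j < L.findIdx (fun σ => !decide (cv t (d/2) σ n)) := by
        rw [← hi]; omega
      have h2 := List.not_of_lt_findIdx h1
      rw [List.getElem_take]
      simpa using h2
    · have h1 := List.findIdx_getElem (p := fun σ => !decide (cv t (d/2) σ n)) (w := h)
      simpa using h1
    · rw [step, if_pos h]
      rw [← hi, List.length_take, List.length_drop, min_eq_left (le_of_lt h)]
      congr 3
      omega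
  · left
    refine ⟨fun σ hσ => ?_, ?_⟩
    · by_contra hc
      exact h (List.findIdx_lt_length_of_exists ⟨σ, hσ, by simpa using hc⟩)
    · rw [step, if_neg h]

lemma step_fin (t d n k : ℕ) (fs : List Fr) (A M B : List (List Bool)) :
    ((∀ σ ∈ M, ¬ cv t (d/2) σ n) ∧ step t (Fr.fin n A.length B.length k :: fs) d (A ++ (M ++ B)) =
      (Fr.fin n A.length B.length k :: (step t fs (d+1) M).1,
        A.map (· ++ [false]) ++ ((step t fs (d+1) M).2 ++ B.map (· ++ [false])))) ∨
    ∃ τ ∈ M, cv t (d/2) τ n ∧ step t (Fr.fin n A.length B.length k :: fs) d (A ++ (M ++ B)) =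
      (Fr.inf n :: (Encodable.decode (α := List Fr) k).getD [],
        (A ++ τ :: B).map (· ++ [false])) := by
  have hM : ((A ++ (M ++ B)).drop A.length).take
      ((A ++ (M ++ B)).length - (A.length + B.length)) = M := by
    rw [List.drop_left]
    have : (A ++ (M ++ B)).length - (A.length + B.length) = M.length := by
      simp only [List.length_append]; omega
    rw [this, List.take_left]
  have hA : (A ++ (M ++ B)).take A.length = A := List.take_left
  have hB : (A ++ (M ++ B)).drop ((A ++ (M ++ B)).length - B.length) = B := by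
    have : (A ++ (M ++ B)).length - B.length = (A ++ M).length := by
      simp only [List.length_append]; omega
    rw [this, ← List.append_assoc, List.drop_left]
  by_cases h : M.findIdx (fun σ => decide (cv t (d/2) σ n)) < M.length
  · right
    refine ⟨M[M.findIdx (fun σ => decide (cv t (d/2) σ n))], List.getElem_mem _, ?_, ?_⟩
    · have h1 := List.findIdx_getElem (p := fun σ => decide (cv t (d/2) σ n)) (w := h)
      simpa using h1
    · rw [step, hM, hA, hB, if_pos h, List.getI_eq_getElem _ h]
      rfl
  · left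
    refine ⟨fun σ hσ hc => ?_, ?_⟩
    · exact h (List.findIdx_lt_length_of_exists ⟨σ, hσ, by simpa using hc⟩)
    · rw [step, hM, hA, hB, if_neg h]

lemma split_last {L : List (List Bool)} {m : ℕ} (h : L.length = m + 1) :
    ∃ Ls ω, L = Ls ++ [ω] ∧ Ls.length = m := by
  have hne : L ≠ [] := by rintro rfl; simp at h
  refine ⟨L.dropLast, L.getLast hne, (List.dropLast_append_getLast hne).symm, ?_⟩
  rw [List.length_dropLast, h]; rfl

lemma split_mid {L : List (List Bool)} {b m c : ℕ} (h : L.length = b + (m + c)) :
    ∃ A M B, L = A ++ (M ++ B) ∧ A.length = b ∧ M.length = m ∧ B.length = c := by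
  refine ⟨L.take b, (L.drop b).take m, (L.drop b).drop m, ?_, ?_, ?_, ?_⟩
  · rw [List.take_append_drop, List.take_append_drop]
  · rw [List.length_take]; omega
  · rw [List.length_take, List.length_drop]; omega
  · rw [List.length_drop, List.length_drop]; omega

/-- the structure of a step -/
theorem step_all (t : ℕ) {fs : List Fr} : ∀ {d : ℕ} {L : List (List Bool)}, Val fs L.length →
    Ex L (step t fs d L).2 ∧ Val (step t fs d L).1 (step t fs d L).2.length := by
  induction fs with
  | nil =>
    intro d L h
    generalize hm : L.length = m at h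
    cases h
    obtain ⟨σ, rfl⟩ := List.length_eq_one_iff.1 hm
    by_cases hd : d % 2 = 0
    · rw [step_nil_even hd]
      exact ⟨Ex.split Ex.nil, Val.un Val.nil⟩
    · rw [step_nil_odd hd]
      exact ⟨Ex.keep Ex.nil, Val.inf Val.nil⟩
  | cons f fs ih =>
    intro d L h
    generalize hm : L.length = m at h
    cases h with
    | @un p _ m h =>
      obtain ⟨Ls, ω, rfl, h2⟩ := split_last hm
      by_cases hc : Code.evaln t (Denumerable.ofNat Code (d/2)) p = some 0
      · rw [step_un_sw hc]
        refine ⟨?_, Val.sw Val.nil⟩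
        have := Ex.append (Ex.none Ls) (Ex.map0 [ω])
        exact this
      · rw [step_un_un hc]
        subst h2
        obtain ⟨h3, h4⟩ := ih (d := d+1) h
        refine ⟨?_, ?_⟩
        · exact Ex.append h3 (Ex.map0 [ω])
        · simp only [List.length_append, List.length_singleton]
          exact Val.un h4
    | sw h =>
      subst hm
      obtain ⟨h3, h4⟩ := ih (d := d+1) h
      rw [step]
      exact ⟨h3, Val.sw h4⟩
    | @inf n _ _ h =>
      subst hm
      obtain ⟨h3, h4⟩ := ih (d := d+1) h
      rcases step_inf t d n fs L with ⟨_, h5⟩ | ⟨A, τ, B, hL, _, _, h5⟩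
      · rw [h5]
        exact ⟨h3, Val.inf h4⟩
      · rw [h5]
        refine ⟨Ex.map0 L, ?_⟩
        subst hL
        have h6 : (List.map (fun x => x ++ [false]) (A ++ τ :: B)).length =
            A.length + (1 + B.length) := by simp; omega
        have h7 : (A ++ τ :: B).length = A.length + (1 + B.length) := by simp; omega
        rw [h6]
        rw [h7] at h
        exact Val.fin Val.nil h
    | @fin n b c _ gs m h hg =>
      obtain ⟨A, M, B, rfl, rfl, rfl, rfl⟩ := split_mid hm
      obtain ⟨h3, h4⟩ := ih (d := d+1) h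
      rcases step_fin t d n (Encodable.encode gs) fs A M B with ⟨_, h5⟩ | ⟨τ, hτ, _, h5⟩
      · rw [h5]
        refine ⟨Ex.append (Ex.map0 A) (Ex.append h3 (Ex.map0 B)), ?_⟩
        simp only [List.length_append, List.length_map]
        exact Val.fin h4 hg
      · rw [h5, Encodable.encodek]
        refine ⟨?_, ?_⟩
        · apply Ex.sub
          refine List.Sublist.append (List.Sublist.refl A) ?_
          exact List.Sublist.append (List.singleton_sublist.2 hτ) (List.Sublist.refl B)
        · simp only [Option.getD_some]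
          refine Val.inf ?_
          have h6 : (List.map (fun x => x ++ [false]) (A ++ τ :: B)).length =
            A.length + (1 + B.length) := by simp; omega
          rw [h6]
          exact hg

end Pool.Agent.TH738.NR
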